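import Pool.Agent.H81.D3.Targets

/-!
MP_ee74d2_an, dimension 3 (`m = 2`), exponents below `10/3`: row CHN, the chain.
-/

set_option autoImplicit false

namespace Pool.Agent.H81.D3.CHN

open MeasureTheory Set
open Pool.Agent.H83.G
open Pool.Agent.H81.D3

/-- thresholds -/
theorem thr (c x : ℝ) (hx : 0 < x) : ∃ T : ℝ, 1 ≤ T ∧ ∀ Λ : ℝ, T ≤ Λ → c ≤ Λ ^ x := by
  refine ⟨max 1 ((max c 1) ^ (1 / x)), le_max_left _ _, fun Λ hΛ => ?_⟩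
  have h1 : (max c 1) ^ (1 / x) ≤ Λ := (le_max_right _ _).trans hΛ
  have h0 : (0 : ℝ) < max c 1 := lt_of_lt_of_le one_pos (le_max_right _ _)
  calc c ≤ max c 1 := le_max_left _ _
    _ = ((max c 1) ^ (1 / x)) ^ x := by
        rw [← Real.rpow_mul h0.le, one_div, inv_mul_cancel₀ hx.ne', Real.rpow_one]
    _ ≤ Λ ^ x := Real.rpow_le_rpow (by positivity) h1 hx.le

/-- the reduction from Theorem G -/
theorem red1 {R Λ e x Cb ε₁ c₆ : ℝ} (hR : 1 ≤ R) (hΛ : 1 ≤ Λ) (he : 0 < e) (hε : 0 < ε₁)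
    (h1 : R ^ ε₁ * Λ ^ (-c₆) * e ≤ x) (h2 : x ≤ Cb * R ^ (ε₁ / 8) * e) :
    R ^ (ε₁ / 8) ≤ Cb * Λ ^ c₆ := by
  have hR0 : 0 < R := by linarith
  have hΛ0 : 0 < Λ := by linarith
  have h3 : R ^ ε₁ * Λ ^ (-c₆) ≤ Cb * R ^ (ε₁ / 8) := le_of_mul_le_mul_right (h1.trans h2) he
  have h4 : Λ ^ (-c₆) = (Λ ^ c₆)⁻¹ := Real.rpow_neg hΛ0.le _
  have h5 : 0 < Λ ^ c₆ := Real.rpow_pos_of_pos hΛ0 _
  have h6 : R ^ ε₁ ≤ Cb * R ^ (ε₁ / 8) * Λ ^ c₆ := by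
    rw [h4, ← div_eq_mul_inv, div_le_iff₀ h5] at h3
    exact h3
  have h7 : R ^ ε₁ = R ^ (ε₁ / 8) * R ^ (7 * ε₁ / 8) := by
    rw [← Real.rpow_add hR0]; congr 1; ring
  have h8 : 0 < R ^ (ε₁ / 8) := Real.rpow_pos_of_pos hR0 _
  have h9 : R ^ (7 * ε₁ / 8) ≤ Cb * Λ ^ c₆ := by
    have : R ^ (ε₁ / 8) * R ^ (7 * ε₁ / 8) ≤ R ^ (ε₁ / 8) * (Cb * Λ ^ c₆) := by
      rw [← h7]; linarith
    exact le_of_mul_le_mul_left this h8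
  exact (Real.rpow_le_rpow_of_exponent_le hR (by linarith)).trans h9

/-- `R` is large -/
theorem red2 {R A H I x C : ℝ} {ε₁ c₆ : ℝ} (hR : 1 ≤ R) (hA : 0 < A) (hH : 0 < H)
    (hε : 0 < ε₁) (hI : 0 < I)
    (h1 : R ^ ε₁ * (A * R / H) ^ (-c₆) * (A ^ (4 / 3 : ℝ) * R ^ (1 / 3 : ℝ) * I) ≤
      x * H ^ (10 / 3 : ℝ)) (h2 : x * H ^ 2 ≤ C * I) :
    (A * R / H) ^ (4 / 3 - c₆) ≤ C * R := by
  have hR0 : 0 < R := by linarith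
  have hΛ0 : 0 < A * R / H := by positivity
  set Λ := A * R / H with hΛ
  have e1 : x * H ^ (10 / 3 : ℝ) = x * H ^ 2 * H ^ (4 / 3 : ℝ) := by
    rw [mul_assoc, ← Real.rpow_natCast H 2, ← Real.rpow_add hH]
    norm_num
  have e2 : x * H ^ (10 / 3 : ℝ) ≤ C * I * H ^ (4 / 3 : ℝ) := by
    rw [e1]; gcongr
  have e3 : (1 : ℝ) ≤ R ^ ε₁ := Real.one_le_rpow hR hε.le
  have e4 : Λ ^ (-c₆) * (A ^ (4 / 3 : ℝ) * R ^ (1 / 3 : ℝ) * I) ≤ C * I * H ^ (4 / 3 : ℝ) := by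
    refine le_trans ?_ (h1.trans e2)
    have : 0 ≤ Λ ^ (-c₆) * (A ^ (4 / 3 : ℝ) * R ^ (1 / 3 : ℝ) * I) := by positivity
    nlinarith
  have e5 : A ^ (4 / 3 : ℝ) * R ^ (1 / 3 : ℝ) * R = (Λ * H) ^ (4 / 3 : ℝ) := by
    have : Λ * H = A * R := by rw [hΛ]; field_simp
    rw [this, Real.mul_rpow hA.le hR0.le, mul_assoc]
    congr 1
    nth_rewrite 2 [← Real.rpow_one R]
    rw [← Real.rpow_add hR0]
    norm_num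
  rw [Real.mul_rpow hΛ0.le hH.le] at e5
  have e6 : Λ ^ (-c₆) * Λ ^ (4 / 3 : ℝ) = Λ ^ (4 / 3 - c₆) := by
    rw [← Real.rpow_add hΛ0]; congr 1; ring
  have hH43 : 0 < H ^ (4 / 3 : ℝ) := by positivity
  have e7 : Λ ^ (4 / 3 - c₆) * (I * H ^ (4 / 3 : ℝ)) ≤ C * R * (I * H ^ (4 / 3 : ℝ)) := by
    rw [← e6]
    calc Λ ^ (-c₆) * Λ ^ (4 / 3 : ℝ) * (I * H ^ (4 / 3 : ℝ))
        = Λ ^ (-c₆) * I * (Λ ^ (4 / 3 : ℝ) * H ^ (4 / 3 : ℝ)) := by ring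
      _ = Λ ^ (-c₆) * I * (A ^ (4 / 3 : ℝ) * R ^ (1 / 3 : ℝ) * R) := by rw [e5]
      _ = Λ ^ (-c₆) * (A ^ (4 / 3 : ℝ) * R ^ (1 / 3 : ℝ) * I) * R := by ring
      _ ≤ C * I * H ^ (4 / 3 : ℝ) * R := by gcongr
      _ = _ := by ring
  exact le_of_mul_le_mul_right e7 (by positivity)

/-- the end: `w` is large -/
theorem end1 {A R H H' D Λ : ℝ} {w : ℕ} {ν : ℝ} (hΛ1 : 1 ≤ Λ) (hA : 0 < A) (hR : 0 < R)
    (hH : 0 < H) (hw : 1 ≤ w) (hΛ : Λ = A * R / H) (hν : ν ≤ 1 / 1000)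
    (h1 : A * R ≤ Λ ^ (9 * ν) * ((w : ℝ) ^ 2 * H')) (h2 : H' ^ 2 * w ≤ D * H ^ 2)
    (h3 : D ≤ Λ ^ (ν / 100)) : Λ ^ (1 / 2 : ℝ) ≤ w := by
  have hΛ0 : 0 < Λ := by linarith
  have hw0 : (1 : ℝ) ≤ w := by exact_mod_cast hw
  have e1 : A * R = Λ * H := by rw [hΛ]; field_simp
  have e2 : (A * R) ^ 2 ≤ (Λ ^ (9 * ν)) ^ 2 * ((w : ℝ) ^ 3 * (D * H ^ 2)) := by
    calc (A * R) ^ 2 ≤ (Λ ^ (9 * ν) * ((w : ℝ) ^ 2 * H')) ^ 2 := by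
          have : 0 ≤ A * R := by positivity
          gcongr
      _ = (Λ ^ (9 * ν)) ^ 2 * ((w : ℝ) ^ 3 * (H' ^ 2 * w)) := by ring
      _ ≤ _ := by gcongr
  have e3 : Λ ^ 2 * H ^ 2 ≤ (Λ ^ (9 * ν)) ^ 2 * ((w : ℝ) ^ 3 * (Λ ^ (ν / 100) * H ^ 2)) := by
    rw [e1, mul_pow] at e2
    refine e2.trans ?_
    gcongr
  have e4 : Λ ^ 2 ≤ (Λ ^ (9 * ν)) ^ 2 * Λ ^ (ν / 100) * (w : ℝ) ^ 3 := by
    have : Λ ^ 2 * H ^ 2 ≤ ((Λ ^ (9 * ν)) ^ 2 * Λ ^ (ν / 100) * (w : ℝ) ^ 3) * H ^ 2 := by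
      refine e3.trans (le_of_eq ?_); ring
    exact le_of_mul_le_mul_right this (by positivity)
  have e5 : (Λ ^ (9 * ν)) ^ 2 * Λ ^ (ν / 100) ≤ Λ ^ (1 / 2 : ℝ) := by
    rw [← Real.rpow_natCast, ← Real.rpow_mul hΛ0.le, ← Real.rpow_add hΛ0]
    refine Real.rpow_le_rpow_of_exponent_le hΛ1 ?_
    push_cast
    linarith
  have e6 : Λ ^ 2 = Λ ^ (1 / 2 : ℝ) * (Λ ^ (1 / 2 : ℝ)) ^ 3 := by
    rw [← Real.rpow_natCast (Λ ^ (1 / 2 : ℝ)) 3, ← Real.rpow_mul hΛ0.le, ← Real.rpow_add hΛ0,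
      ← Real.rpow_natCast]
    norm_num
  have e7 : (Λ ^ (1 / 2 : ℝ)) ^ 3 ≤ (w : ℝ) ^ 3 := by
    have hp : 0 < Λ ^ (1 / 2 : ℝ) := by positivity
    have : Λ ^ (1 / 2 : ℝ) * (Λ ^ (1 / 2 : ℝ)) ^ 3 ≤ Λ ^ (1 / 2 : ℝ) * (w : ℝ) ^ 3 := by
      rw [← e6]
      refine e4.trans ?_
      gcongr
    exact le_of_mul_le_mul_left this hp
  exact le_of_pow_le_pow_left₀ (by norm_num) (by positivity) e7

/-- the end: upper bound for `A R / (w² H')` -/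
theorem end2 {y C D Λ x ν : ℝ} (hΛ1 : 1 ≤ Λ) (hy : 0 ≤ y) (h1 : y ^ (4 / 3 : ℝ) ≤ C * D * x)
    (h2 : C * D ≤ Λ ^ ν) (h3 : x ≤ Λ ^ (11 * ν)) (hx : 0 ≤ x) :
    y ≤ Λ ^ (9 * ν) := by
  have hΛ0 : 0 < Λ := by linarith
  have e1 : y ^ (4 / 3 : ℝ) ≤ Λ ^ (12 * ν) := by
    calc y ^ (4 / 3 : ℝ) ≤ C * D * x := h1
      _ ≤ Λ ^ ν * Λ ^ (11 * ν) := by gcongr
      _ = Λ ^ (12 * ν) := by rw [← Real.rpow_add hΛ0]; congr 1; ring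
  have e2 : (y ^ (4 / 3 : ℝ)) ^ (3 / 4 : ℝ) ≤ (Λ ^ (12 * ν)) ^ (3 / 4 : ℝ) :=
    Real.rpow_le_rpow (by positivity) e1 (by norm_num)
  rw [← Real.rpow_mul hy, ← Real.rpow_mul hΛ0.le] at e2
  norm_num at e2
  have : 12 * ν * (3 / 4) = 9 * ν := by ring
  rw [this] at e2
  exact e2

/-- the number `K` of the first step -/
theorem fl {Λ θ : ℝ} (hΛ : 1 ≤ Λ) (h2 : 2 ≤ Λ ^ (θ / 2)) :
    ((⌊Λ ^ θ⌋₊ : ℕ) : ℝ) ≤ Λ ^ θ ∧ Λ ^ (θ / 2) ≤ ((⌊Λ ^ θ⌋₊ : ℕ) : ℝ) := by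
  have h0 : 0 < Λ := by linarith
  refine ⟨Nat.floor_le (by positivity), ?_⟩
  have h3 := Nat.lt_floor_add_one (Λ ^ θ)
  have h4 : Λ ^ θ = Λ ^ (θ / 2) * Λ ^ (θ / 2) := by
    rw [← Real.rpow_add h0]; congr 1; ring
  nlinarith

/-- the losses -/
theorem dl {Λ C Cb r Y n c₆ c₇ : ℝ} (hΛ : 1 ≤ Λ) (hC : 1 ≤ C) (hCb : 1 ≤ Cb)
    (hY : 0 ≤ Y) (hn : 0 ≤ n) (h1 : r ≤ Cb * Λ ^ c₆) (h2 : n ≤ 2 * r) (h3 : Y ≤ Λ ^ (c₇ / 8))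
    (h4 : c₆ ≤ c₇ / 16) (hc : 0 < c₇) (h5 : 2 * C * Cb ^ 3 ≤ Λ ^ (c₇ / 2)) :
    C * Cb * r * Y * n ≤ Λ ^ c₇ := by
  have h0 : 0 < Λ := by linarith
  have e1 : C * Cb * r * Y * n ≤ C * Cb * (Cb * Λ ^ c₆) * Λ ^ (c₇ / 8) * (2 * (Cb * Λ ^ c₆)) := by
    have : n ≤ 2 * (Cb * Λ ^ c₆) := by linarith
    have h6 : 0 ≤ C * Cb := by positivity
    gcongr
  have e2 : C * Cb * (Cb * Λ ^ c₆) * Λ ^ (c₇ / 8) * (2 * (Cb * Λ ^ c₆)) =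
      2 * C * Cb ^ 3 * Λ ^ (c₆ + c₆ + c₇ / 8) := by
    rw [Real.rpow_add h0, Real.rpow_add h0]; ring
  rw [e2] at e1
  refine e1.trans ?_
  calc 2 * C * Cb ^ 3 * Λ ^ (c₆ + c₆ + c₇ / 8) ≤ Λ ^ (c₇ / 2) * Λ ^ (c₇ / 2) := by
        have : Λ ^ (c₆ + c₆ + c₇ / 8) ≤ Λ ^ (c₇ / 2) :=
          Real.rpow_le_rpow_of_exponent_le hΛ (by linarith)
        gcongr
    _ = Λ ^ c₇ := by rw [← Real.rpow_add h0]; congr 1; ring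

/-- the upper bound for `A R / (w² H')` at the first step -/
theorem lev0 {A R H H' D Λ : ℝ} {w : ℕ} (hA : 0 < A) (hR : 0 < R) (hH : 0 < H) (hw : 1 ≤ w)
    (hH' : 0 < H') (hΛ : Λ = A * R / H) (h1 : H ^ 2 ≤ D * (H' ^ 2 * w)) (h2 : D ≤ (w : ℝ) ^ 3) :
    A * R / ((w : ℝ) ^ 2 * H') ≤ Λ := by
  have hw0 : (1 : ℝ) ≤ w := by exact_mod_cast hw
  have hw1 : (0 : ℝ) < w := by linarith
  have h3 : H ^ 2 ≤ ((w : ℝ) ^ 2 * H') ^ 2 := by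
    calc H ^ 2 ≤ D * (H' ^ 2 * w) := h1
      _ ≤ (w : ℝ) ^ 3 * (H' ^ 2 * w) := by gcongr
      _ = _ := by ring
  have h4 : H ≤ (w : ℝ) ^ 2 * H' := le_of_pow_le_pow_left₀ (by norm_num) (by positivity) h3
  rw [hΛ]
  gcongr

/-- the iteration -/
theorem loop (hMON : T_MON) {β : E 2 → ℂ} {C₀ θ ν cb₀ R A H Λ E₀ S : ℝ} {G : Z 2 → ℂ}
    {X : Finset (Z 2)} {K₁ n J : ℕ} (hΛ : 1 ≤ Λ) (hC₀ : 1 ≤ C₀) 
    (hθ1 : θ ≤ 1) (he : 0 < En43 A R G) (hE : 0 < E₀) (hS : S ≤ Λ ^ E₀)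
    (h1 : E₀ * C₀ ^ J * (C₀ + 3) ≤ ν * cb₀ / 2) (h2 : E₀ * C₀ ^ J * (C₀ + 3) ≤ ν * θ / 20)
    (hstep : ∀ (D H' : ℝ) (w : ℕ) (P : Finset Pq) (Q : Finset (Z 2 × Pq)),
      StT β G (En43 A R G) H D X K₁ n w H' P Q → S ≤ D → D ^ (C₀ + 3) ≤ Λ ^ (ν * cb₀ / 2) →
      D ^ (C₀ + 3) ≤ Λ ^ (ν * θ / 20) → Λ ^ ν ≤ A * R / ((w : ℝ) ^ 2 * H') →
      (w : ℝ) ^ 2 * Λ ^ (11 * ν) ≤ R →
      ∃ (w' : ℕ) (H'' : ℝ) (P' : Finset Pq) (Q' : Finset (Z 2 × Pq)), w ≤ w' ∧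
      StT β G (En43 A R G) H (D ^ C₀) X K₁ n w' H'' P' Q' ∧
      (w' : ℝ) ^ 2 * Λ ^ (10 * ν) ≤ R ∧
      (A * R / ((w' : ℝ) ^ 2 * H'') ≤ (A * R / ((w : ℝ) ^ 2 * H')) ^ (1 - θ) ∨
        R ≤ (w' : ℝ) ^ 2 * Λ ^ (11 * ν)))
    (h0 : ∃ (w : ℕ) (H' : ℝ) (P : Finset Pq) (Q : Finset (Z 2 × Pq)),
      StT β G (En43 A R G) H (Λ ^ E₀) X K₁ n w H' P Q ∧ (w : ℝ) ^ 2 * Λ ^ (10 * ν) ≤ R ∧
      A * R / ((w : ℝ) ^ 2 * H') ≤ Λ) :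
    ∀ j : ℕ, j ≤ J → ∃ (w : ℕ) (H' : ℝ) (P : Finset Pq) (Q : Finset (Z 2 × Pq)),
      StT β G (En43 A R G) H (Λ ^ (E₀ * C₀ ^ j)) X K₁ n w H' P Q ∧
      (w : ℝ) ^ 2 * Λ ^ (10 * ν) ≤ R ∧
      (A * R / ((w : ℝ) ^ 2 * H') ≤ Λ ^ ((1 - θ) ^ j) ∨ A * R / ((w : ℝ) ^ 2 * H') ≤ Λ ^ ν ∨
        R ≤ (w : ℝ) ^ 2 * Λ ^ (11 * ν)) := by
  have hΛ0 : 0 < Λ := by linarith
  intro j
  induction j with
  | zero =>
    intro _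
    obtain ⟨w, H', P, Q, a1, a2, a3⟩ := h0
    refine ⟨w, H', P, Q, ?_, a2, Or.inl ?_⟩
    · simpa using a1
    · simpa using a3
  | succ j ih =>
    intro hj
    obtain ⟨w, H', P, Q, a1, a2, a3⟩ := ih (by omega)
    have hjJ : C₀ ^ j ≤ C₀ ^ J := pow_le_pow_right₀ hC₀ (by omega)
    have hpow : (0 : ℝ) < C₀ ^ j := by positivity
    have hmono : Λ ^ (E₀ * C₀ ^ j) ≤ Λ ^ (E₀ * C₀ ^ (j + 1)) := by
      refine Real.rpow_le_rpow_of_exponent_le hΛ ?_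
      rw [pow_succ]
      nlinarith [mul_pos hE hpow]
    by_cases b1 : A * R / ((w : ℝ) ^ 2 * H') ≤ Λ ^ ν
    · exact ⟨w, H', P, Q, hMON.2.1 β G _ H _ _ X K₁ n w H' P Q he hmono a1, a2,
        Or.inr (Or.inl b1)⟩
    by_cases b2 : R ≤ (w : ℝ) ^ 2 * Λ ^ (11 * ν)
    · exact ⟨w, H', P, Q, hMON.2.1 β G _ H _ _ X K₁ n w H' P Q he hmono a1, a2,
        Or.inr (Or.inr b2)⟩
    push Not at b1 b2
    have c1 : A * R / ((w : ℝ) ^ 2 * H') ≤ Λ ^ ((1 - θ) ^ j) := by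
      rcases a3 with h | h | h
      · exact h
      · linarith
      · linarith
    have hexp : ∀ x : ℝ, E₀ * C₀ ^ J * (C₀ + 3) ≤ x →
        (Λ ^ (E₀ * C₀ ^ j)) ^ (C₀ + 3) ≤ Λ ^ x := by
      intro x hx
      rw [← Real.rpow_mul hΛ0.le]
      refine Real.rpow_le_rpow_of_exponent_le hΛ (le_trans ?_ hx)
      have : 0 < C₀ + 3 := by linarith
      gcongr
    have hSj : S ≤ Λ ^ (E₀ * C₀ ^ j) := by
      refine hS.trans (Real.rpow_le_rpow_of_exponent_le hΛ ?_)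
      have : (1 : ℝ) ≤ C₀ ^ j := one_le_pow₀ hC₀
      nlinarith
    obtain ⟨w', H'', P', Q', d0, d1, d2, d3⟩ := hstep _ H' w P Q a1 hSj (hexp _ h1) (hexp _ h2)
      b1.le b2.le
    have e1 : (Λ ^ (E₀ * C₀ ^ j)) ^ C₀ = Λ ^ (E₀ * C₀ ^ (j + 1)) := by
      rw [← Real.rpow_mul hΛ0.le, pow_succ, mul_assoc]
    rw [e1] at d1
    refine ⟨w', H'', P', Q', d1, d2, ?_⟩
    rcases d3 with d3 | d3
    · left
      refine d3.trans ?_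
      have hw0 : 0 ≤ A * R / ((w : ℝ) ^ 2 * H') := le_trans (by positivity) b1.le
      calc (A * R / ((w : ℝ) ^ 2 * H')) ^ (1 - θ) ≤ (Λ ^ ((1 - θ) ^ j)) ^ (1 - θ) :=
            Real.rpow_le_rpow hw0 c1 (by linarith)
        _ = Λ ^ ((1 - θ) ^ (j + 1)) := by rw [← Real.rpow_mul hΛ0.le, pow_succ]
    · exact Or.inr (Or.inr d3)

/-- a lower bound for `x` from `R^{ε₁} Λ^{-c} e ≤ x` -/
theorem low0 {R Λ e x c d ε₁ : ℝ} (hR : 1 ≤ R) (hΛ : 1 ≤ Λ) (he : 0 < e) (hε : 0 < ε₁)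
    (hcd : c ≤ d) (h : R ^ ε₁ * Λ ^ (-c) * e ≤ x) : e ≤ Λ ^ d * x := by
  have hΛ0 : 0 < Λ := by linarith
  have e3 : (1 : ℝ) ≤ R ^ ε₁ := Real.one_le_rpow hR hε.le
  have e4 : Λ ^ (-c) * e ≤ x := by
    refine le_trans ?_ h
    have : 0 ≤ Λ ^ (-c) * e := by positivity
    nlinarith
  have e5 : Λ ^ d * (Λ ^ (-c) * e) ≤ Λ ^ d * x := by gcongr
  refine le_trans ?_ e5
  rw [← mul_assoc, ← Real.rpow_add hΛ0]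
  have : 1 ≤ Λ ^ (d + -c) := Real.one_le_rpow hΛ (by linarith)
  nlinarith

theorem pf_CHN (hTOP : T_TOP) (hTST : T_TST) (hCHS : T_CHS) (hLRW : T_LRW) (hBA2 : T_BA2)
    (hMON : T_MON) : T_CHN := by
  intro cb₀ C₁ L₀ hcb hC₁ hL₀ hLem hE43
  obtain ⟨CT, hCT1, hTOP⟩ := hTOP
  obtain ⟨CS, hCS1, hTS⟩ := hTST
  obtain ⟨CL, hCL1, hLRW⟩ := hLRW
  obtain ⟨θ, hθ0, hθ1, hθC⟩ : ∃ θ : ℝ, 0 < θ ∧ θ ≤ 1 / 100 ∧ θ * C₁ ≤ 1 / 2 := by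
    have hC0 : 0 < C₁ := by linarith
    refine ⟨min (1 / 100) (1 / (2 * C₁)), by positivity, min_le_left _ _, ?_⟩
    calc min (1 / 100) (1 / (2 * C₁)) * C₁ ≤ 1 / (2 * C₁) * C₁ := by
          gcongr; exact min_le_right _ _
      _ = 1 / 2 := by field_simp
  refine ⟨θ, hθ0, hθ1, fun ν hν hνθ => ?_⟩
  obtain ⟨J, hJ⟩ : ∃ J : ℕ, (1 - θ) ^ J < ν := exists_pow_lt_of_lt_one hν (by linarith)
  have hCT0 : 0 < CT := by linarith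
  have hCS0 : 0 < CS := by linarith
  have hCSJ : (1 : ℝ) ≤ CS ^ J := one_le_pow₀ hCS1
  have hν1 : ν ≤ 1 / 1000 := by linarith
  -- the exponent of the first loss
  obtain ⟨c₇, hc₇, r1, r2, r3⟩ : ∃ c₇ : ℝ, 0 < c₇ ∧
      c₇ * CT * CS ^ J * (CS + 3 + CL) ≤ ν * cb₀ / 2 ∧
      c₇ * CT * CS ^ J * (CS + 3 + CL) ≤ ν * θ / 20 ∧
      c₇ * CT * CS ^ J * (CS + 3 + CL) ≤ ν / 100 := by
    have hF : 0 < CT * CS ^ J * (CS + 3 + CL) := by positivity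
    refine ⟨min (ν * cb₀ / 2) (min (ν * θ / 20) (ν / 100)) / (CT * CS ^ J * (CS + 3 + CL)),
      by positivity, ?_, ?_, ?_⟩
    all_goals
      rw [show min (ν * cb₀ / 2) (min (ν * θ / 20) (ν / 100)) / (CT * CS ^ J * (CS + 3 + CL)) * CT *
        CS ^ J * (CS + 3 + CL) = min (ν * cb₀ / 2) (min (ν * θ / 20) (ν / 100)) by field_simp]
    · exact min_le_left _ _
    · exact (min_le_right _ _).trans (min_le_left _ _)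
    · exact (min_le_right _ _).trans (min_le_right _ _)
  have hE0 : 0 < c₇ * CT := by positivity
  have hEJ : 0 < c₇ * CT * CS ^ J := by positivity
  have hEle : c₇ * CT ≤ c₇ * CT * CS ^ J := le_mul_of_one_le_right hE0.le hCSJ
  have hc7T : c₇ ≤ c₇ * CT := le_mul_of_one_le_right hc₇.le hCT1
  obtain ⟨δ, hδ0, hδ1, hδT, hδS⟩ : ∃ δ : ℝ, 0 < δ ∧ δ ≤ 1 / 100 ∧ CT * δ ≤ c₇ / 8 ∧
      CS * δ ≤ c₇ / 8 := by
    refine ⟨min (1 / 100) (min (c₇ / 8 / CT) (c₇ / 8 / CS)), by positivity, min_le_left _ _, ?_, ?_⟩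
    · calc CT * min (1 / 100) (min (c₇ / 8 / CT) (c₇ / 8 / CS)) ≤ CT * (c₇ / 8 / CT) := by
            gcongr; exact (min_le_right _ _).trans (min_le_left _ _)
        _ = c₇ / 8 := by field_simp
    · calc CS * min (1 / 100) (min (c₇ / 8 / CT) (c₇ / 8 / CS)) ≤ CS * (c₇ / 8 / CS) := by
            gcongr; exact (min_le_right _ _).trans (min_le_right _ _)
        _ = c₇ / 8 := by field_simp
  obtain ⟨c₆, hc₆, hc₆1, hc₆2⟩ : ∃ c₆ : ℝ, 0 < c₆ ∧ c₆ ≤ 1 / 12 ∧ c₆ ≤ c₇ / 16 :=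
    ⟨min (1 / 12) (c₇ / 16), by positivity, min_le_left _ _, min_le_right _ _⟩
  refine ⟨c₆, hc₆, hc₆1, fun L β ε₁ B hL hβ hε₁ hB => ?_⟩
  have hL10 : 10 ≤ L := hL₀.trans hL
  have hε : 0 < ε₁ / 8 := by positivity
  obtain ⟨Cb1, hCb1, hE⟩ := hE43 L (ε₁ / 8) hL10 hε
  obtain ⟨δ₁, hδ₁, hδ₁ε, N₀, hN⟩ := hLem L β hL hβ (ε₁ / 8) hε
  obtain ⟨Cb2, hCb2, hLN⟩ := hN N₀ le_rfl
  obtain ⟨Cb, hCb, hE, hLN⟩ : ∃ Cb : ℝ, 1 ≤ Cb ∧ E43 L (ε₁ / 8) Cb ∧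
      LemN L β N₀ cb₀ C₁ (ε₁ / 8) δ₁ Cb :=
    ⟨max Cb1 Cb2, hCb1.trans (le_max_left _ _), hMON.2.2.1 L _ _ _ (le_max_left _ _) hE,
      hMON.2.2.2 L β N₀ cb₀ C₁ _ _ _ _ hCb2 (le_max_right _ _) hLN⟩
  have hMT : 1 ≤ 2 / θ := by rw [le_div_iff₀ hθ0]; linarith
  obtain ⟨Ct, hCt, hTOP⟩ := hTOP L N₀ β δ (2 / θ) hL10 hβ hδ0 hδ1 hMT
  obtain ⟨Cs, hCs, hCHS⟩ := hCHS CS hCS1 hTS L N₀ β δ θ ν cb₀ C₁ hL10 hβ hδ0 hδ1 hθ0 hθ1 hν hνθ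
    hcb hC₁ hθC
  obtain ⟨Cl, hCl, hLRW⟩ := hLRW L β hL10 hβ
  obtain ⟨C2, hC2, hBA2⟩ := hBA2 L
  obtain ⟨T1, hT1, t1⟩ := thr (2 * Ct * Cb ^ 3) (c₇ / 2) (by positivity)
  obtain ⟨T1', hT1', t1'⟩ := thr (2 * Cs * Cb ^ 3) (c₇ / 2) (by positivity)
  obtain ⟨T2, hT2, t2⟩ := thr Ct (θ / 2 * δ) (by positivity)
  obtain ⟨T3, hT3, t3⟩ := thr Cb (θ / 2) (by positivity)
  obtain ⟨T4, hT4, t4⟩ := thr Ct (1 / 2) (by positivity)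
  obtain ⟨T5, hT5, t5⟩ := thr 2 (θ / 2) (by positivity)
  obtain ⟨T6, hT6, t6⟩ := thr Cl (ν / 2) (by positivity)
  obtain ⟨T7, hT7, t7⟩ := thr C2 (1 / 4) (by positivity)
  obtain ⟨T8, hT8, t8⟩ := thr (B * Cb) (c₇ / 2) (by positivity)
  refine ⟨T1 + T1' + T2 + T3 + T4 + T5 + T6 + T7 + T8 + Cs, by linarith, ?_⟩
  intro R A H G X hR hA hH hC hG hX hXH he hlow
  have hR0 : 0 < R := by linarith
  obtain ⟨Λ, hΛ⟩ : ∃ Λ : ℝ, Λ = A * R / H := ⟨_, rfl⟩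
  rw [← hΛ] at hC hlow ⊢
  have hΛ1 : 1 ≤ Λ := by linarith
  have hΛ0 : 0 < Λ := by linarith
  replace t1 := t1 Λ (by linarith)
  replace t1' := t1' Λ (by linarith)
  replace t2 := t2 Λ (by linarith)
  replace t3 := t3 Λ (by linarith)
  replace t4 := t4 Λ (by linarith)
  replace t5 := t5 Λ (by linarith)
  replace t6 := t6 Λ (by linarith)
  replace t7 := t7 Λ (by linarith)
  replace t8 := t8 Λ (by linarith)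
  have hAR : A * R = Λ * H := by rw [hΛ]; field_simp
  -- the reductions
  have hr : R ^ (ε₁ / 8) ≤ Cb * Λ ^ c₆ :=
    red1 hR hΛ1 he hε₁ hlow (hE R A H G X hR hA hH hG hX hXH)
  have hr1 : 1 ≤ R ^ (ε₁ / 8) := Real.one_le_rpow hR hε.le
  have hI : 0 < ∫ ζ, ‖G ζ‖ ^ 2 := by
    unfold En43 at he
    have : 0 < A ^ (4 / 3 : ℝ) * R ^ (1 / 3 : ℝ) := by positivity
    exact (mul_pos_iff_of_pos_left this).1 he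
  have hRΛ : Λ ≤ R := by
    have h2 := hBA2 R A H G X hR hH.le hG hX hXH
    have h3 : (A * R / H) ^ (4 / 3 - c₆) ≤ C2 * R := by
      refine red2 (x := X.card) hR hA hH hε₁ hI ?_ h2
      rw [← hΛ]; exact hlow
    rw [← hΛ] at h3
    have h4 : Λ ^ (1 / 4 : ℝ) * Λ ≤ Λ ^ (4 / 3 - c₆) := by
      nth_rewrite 2 [← Real.rpow_one Λ]
      rw [← Real.rpow_add hΛ0]
      exact Real.rpow_le_rpow_of_exponent_le hΛ1 (by linarith)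
    have h5 : Λ ^ (1 / 4 : ℝ) * Λ ≤ Λ ^ (1 / 4 : ℝ) * R := by
      refine h4.trans (h3.trans ?_); gcongr
    exact le_of_mul_le_mul_left h5 (by positivity)
  -- the number of circles
  obtain ⟨n, hn1, hnd, hnu⟩ : ∃ n : ℕ, 1 ≤ n ∧ R ^ δ₁ ≤ n ∧ (n : ℝ) ≤ 2 * R ^ (ε₁ / 8) := by
    have h1 : 1 ≤ R ^ δ₁ := Real.one_le_rpow hR hδ₁.le
    refine ⟨⌈R ^ δ₁⌉₊, Nat.one_le_iff_ne_zero.2 ?_, Nat.le_ceil _, ?_⟩
    · intro h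
      have := Nat.ceil_eq_zero.1 h
      linarith
    · have h2 := (Nat.ceil_lt_add_one (by linarith : (0 : ℝ) ≤ R ^ δ₁)).le
      have h3 : R ^ δ₁ ≤ R ^ (ε₁ / 8) := Real.rpow_le_rpow_of_exponent_le hR hδ₁ε
      linarith
  have hn0 : (1 : ℝ) ≤ n := by exact_mod_cast hn1
  -- the number `K`
  obtain ⟨K, hKu, hKl⟩ : ∃ K : ℕ, (K : ℝ) ≤ Λ ^ θ ∧ Λ ^ (θ / 2) ≤ (K : ℝ) := ⟨_, fl hΛ1 t5⟩
  have hK1' : (1 : ℝ) ≤ K := le_trans (by linarith) hKl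
  have hK1 : 1 ≤ K := by exact_mod_cast hK1'
  have hKΛ : (K : ℝ) ≤ Λ := by
    refine hKu.trans ?_
    nth_rewrite 2 [← Real.rpow_one Λ]
    exact Real.rpow_le_rpow_of_exponent_le hΛ1 (by linarith)
  have hdl : Ct * Cb * R ^ (ε₁ / 8) * (K : ℝ) ^ (CT * δ) * n ≤ Λ ^ c₇ := by
    refine dl hΛ1 hCt hCb (by positivity) (by linarith) hr hnu ?_ hc₆2 hc₇ t1
    calc (K : ℝ) ^ (CT * δ) ≤ Λ ^ (CT * δ) := by gcongr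
      _ ≤ Λ ^ (c₇ / 8) := Real.rpow_le_rpow_of_exponent_le hΛ1 hδT
  have hdl' : Cs * Cb * R ^ (ε₁ / 8) * Λ ^ (CS * δ) * n ≤ Λ ^ c₇ :=
    dl hΛ1 hCs hCb (by positivity) (by linarith) hr hnu
      (Real.rpow_le_rpow_of_exponent_le hΛ1 hδS) hc₆2 hc₇ t1'
  have hnD : (n : ℝ) ≤ Λ ^ c₇ := by
    refine le_trans ?_ hdl'
    have a1 : 1 ≤ Λ ^ (CS * δ) := Real.one_le_rpow hΛ1 (by positivity)
    have a2 : 1 ≤ Cs * Cb := one_le_mul_of_one_le_of_one_le hCs hCb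
    have a3 : 1 ≤ Cs * Cb * R ^ (ε₁ / 8) := one_le_mul_of_one_le_of_one_le a2 hr1
    have a4 : 1 ≤ Cs * Cb * R ^ (ε₁ / 8) * Λ ^ (CS * δ) := one_le_mul_of_one_le_of_one_le a3 a1
    exact le_mul_of_one_le_left (by linarith) a4
  -- the first state
  have hPar : Par L N₀ β CT Ct δ (2 / θ) cb₀ C₁ (ε₁ / 8) δ₁ Cb R A (Λ ^ c₇) H 1 K n := by
    refine ⟨hLN, hE, hcb, hC₁, hε, hδ₁, hCb, hR, hA, hn1, ?_, ?_, ?_, ?_, ?_, ?_, hdl, hnd⟩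
    · calc Ct ≤ Λ ^ (θ / 2 * δ) := t2
        _ = (Λ ^ (θ / 2)) ^ δ := Real.rpow_mul hΛ0.le _ _
        _ ≤ (K : ℝ) ^ δ := by gcongr
    · exact t3.trans hKl
    · rw [Nat.cast_one, one_mul]
      calc (K : ℝ) ^ 2 ≤ (Λ ^ θ) ^ 2 := by gcongr
        _ = Λ ^ (θ * 2) := by rw [Real.rpow_mul hΛ0.le]; norm_cast
        _ ≤ Λ ^ (1 : ℝ) := Real.rpow_le_rpow_of_exponent_le hΛ1 (by linarith)
        _ = Λ := Real.rpow_one _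
        _ ≤ R := hRΛ
    · rw [hAR, Nat.cast_one, one_pow, one_mul]
      have : Λ ≤ (K : ℝ) ^ (2 / θ) := by
        calc Λ = (Λ ^ (θ / 2)) ^ (2 / θ) := by
              rw [← Real.rpow_mul hΛ0.le, show θ / 2 * (2 / θ) = 1 by field_simp, Real.rpow_one]
          _ ≤ (K : ℝ) ^ (2 / θ) := by gcongr
      gcongr
    · rw [hAR, Nat.cast_one, one_pow, one_mul]
      have h1 : (K : ℝ) ^ C₁ ≤ Λ ^ (1 / 2 : ℝ) := by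
        calc (K : ℝ) ^ C₁ ≤ (Λ ^ θ) ^ C₁ := by gcongr
          _ = Λ ^ (θ * C₁) := (Real.rpow_mul hΛ0.le _ _).symm
          _ ≤ Λ ^ (1 / 2 : ℝ) := Real.rpow_le_rpow_of_exponent_le hΛ1 hθC
      calc (K : ℝ) ^ C₁ * (Ct * H) ≤ Λ ^ (1 / 2 : ℝ) * (Λ ^ (1 / 2 : ℝ) * H) := by gcongr
        _ = Λ ^ (1 / 2 + 1 / 2 : ℝ) * H := by rw [Real.rpow_add hΛ0]; ring
        _ = Λ * H := by norm_num
    · rw [Nat.cast_one, one_pow, one_mul, ← hΛ]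
      have h1 : Ct * Cb * R ^ (ε₁ / 8) ≤ Λ ^ c₇ := by
        refine le_trans ?_ hdl
        have a1 : 1 ≤ (K : ℝ) ^ (CT * δ) := Real.one_le_rpow hK1' (by positivity)
        have a2 : 0 ≤ Ct * Cb * R ^ (ε₁ / 8) := by positivity
        have a3 : 1 ≤ (K : ℝ) ^ (CT * δ) * n := one_le_mul_of_one_le_of_one_le a1 hn0
        calc Ct * Cb * R ^ (ε₁ / 8) = Ct * Cb * R ^ (ε₁ / 8) * 1 := (mul_one _).symm
          _ ≤ Ct * Cb * R ^ (ε₁ / 8) * ((K : ℝ) ^ (CT * δ) * n) := by gcongr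
          _ = _ := by ring
      calc Ct * Cb * (Λ ^ c₇) ^ CT * R ^ (ε₁ / 8) * Λ ^ (-cb₀)
          = Ct * Cb * R ^ (ε₁ / 8) * (Λ ^ c₇) ^ CT * Λ ^ (-cb₀) := by ring
        _ ≤ Λ ^ c₇ * (Λ ^ c₇) ^ CT * Λ ^ (-cb₀) := by gcongr
        _ = Λ ^ (c₇ + c₇ * CT + -cb₀) := by
            rw [← Real.rpow_mul hΛ0.le, Real.rpow_add hΛ0, Real.rpow_add hΛ0]
        _ ≤ Λ ^ (0 : ℝ) := by
            refine Real.rpow_le_rpow_of_exponent_le hΛ1 ?_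
            have b1 : c₇ * CT * CS ^ J * 2 ≤ c₇ * CT * CS ^ J * (CS + 3 + CL) := by
              gcongr; linarith
            have b2 : ν * cb₀ ≤ 1 * cb₀ := by gcongr; linarith
            linarith
        _ = 1 := Real.rpow_zero _
  have hlow' : En43 A R G ≤ Λ ^ c₇ * (X.card * H ^ (10 / 3 : ℝ)) :=
    low0 hR hΛ1 he hε₁ (by linarith) hlow
  obtain ⟨H₁, P₁, Q₁, hst⟩ := hTOP cb₀ C₁ (ε₁ / 8) δ₁ Cb R A H (Λ ^ c₇) G X K n hPar hH hG hX he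
    hXH hlow'
  rw [← Real.rpow_mul hΛ0.le] at hst
  -- the iteration
  have hKn : Λ ^ (c₇ * CT) ≤ (K : ℝ) := by
    refine le_trans (Real.rpow_le_rpow_of_exponent_le hΛ1 ?_) hKl
    have b1 : c₇ * CT * CS ^ J * 1 ≤ c₇ * CT * CS ^ J * (CS + 3 + CL) := by
      gcongr; linarith
    have b2 : ν * θ ≤ 1 * θ := by gcongr; linarith
    linarith
  have hcc : c₇ * CT * CS ^ J * (CS + 3) ≤ c₇ * CT * CS ^ J * (CS + 3 + CL) :=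
    mul_le_mul_of_nonneg_left (by linarith) hEJ.le
  have hK3 : (K : ℝ) ≤ (K : ℝ) ^ 3 := by
    calc (K : ℝ) = (K : ℝ) ^ 1 := (pow_one _).symm
      _ ≤ (K : ℝ) ^ 3 := pow_le_pow_right₀ hK1' (by norm_num)
  have hloop := loop hMON (S := Cs * Cb * R ^ (ε₁ / 8) * Λ ^ (CS * δ) * n) (J := J) (θ := θ)
    (ν := ν) (cb₀ := cb₀) (E₀ := c₇ * CT) (C₀ := CS) (K₁ := K) (n := n) (β := β) (H := H) (X := X)
    hΛ1 hCS1 (by linarith) he hE0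
    (hdl'.trans (Real.rpow_le_rpow_of_exponent_le hΛ1 hc7T))
    (hcc.trans r1) (hcc.trans r2)
    (fun D H' w P Q s1 s2 s3 s4 s5 s6 => by
      rw [hΛ] at s2 s3 s4 s5 s6 ⊢
      exact hCHS (ε₁ / 8) δ₁ Cb R A H D H' G X w K n n P Q hR hA hH (by rw [← hΛ]; linarith) hLN hE
        hε hδ₁ hCb hG hX he s1 hn1 hnd s2 s3 s4 s5 s6)
    ⟨K, H₁, P₁, Q₁, hst, by
      calc (K : ℝ) ^ 2 * Λ ^ (10 * ν) ≤ (Λ ^ θ) ^ 2 * Λ ^ (10 * ν) := by gcongr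
        _ = Λ ^ (θ * 2 + 10 * ν) := by
            rw [Real.rpow_add hΛ0, Real.rpow_mul hΛ0.le θ]; norm_cast
        _ ≤ Λ ^ (1 : ℝ) := Real.rpow_le_rpow_of_exponent_le hΛ1 (by linarith)
        _ = Λ := Real.rpow_one _
        _ ≤ R := hRΛ, by
      exact lev0 hA hR0 hH hK1 hst.H0 hΛ hst.lev1 (hKn.trans hK3)⟩
    J le_rfl
  obtain ⟨w, H', P, Q, hst2, hw1, hw2⟩ := hloop
  set D := Λ ^ (c₇ * CT * CS ^ J) with hD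
  have hDexp : c₇ * CT * CS ^ J ≤ ν / 100 := by
    have b1 : c₇ * CT * CS ^ J * 1 ≤ c₇ * CT * CS ^ J * (CS + 3 + CL) := by
      gcongr; linarith
    linarith
  have hDν : D ≤ Λ ^ (ν / 100) := Real.rpow_le_rpow_of_exponent_le hΛ1 hDexp
  have h7D : Λ ^ c₇ ≤ D := Real.rpow_le_rpow_of_exponent_le hΛ1 (by linarith)
  have hw0 : (1 : ℝ) ≤ w := by exact_mod_cast hst2.w1
  have hw2R : (w : ℝ) ^ 2 ≤ R := by
    refine le_trans ?_ hw1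
    have : 1 ≤ Λ ^ (10 * ν) := Real.one_le_rpow hΛ1 (by positivity)
    exact le_mul_of_one_le_right (by positivity) this
  have hH'0 := hst2.H0
  have hy : A * R / ((w : ℝ) ^ 2 * H') ≤ Λ ^ (9 * ν) := by
    have hsmall : Λ ^ ν ≤ Λ ^ (9 * ν) := Real.rpow_le_rpow_of_exponent_le hΛ1 (by linarith)
    rcases hw2 with h | h | h
    · exact (h.trans (Real.rpow_le_rpow_of_exponent_le hΛ1 hJ.le)).trans hsmall
    · exact h.trans hsmall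
    · have h1 := hLRW R A H D H' G X w P Q hR hA hG hX he hst2.toSt hw2R
      refine end2 (C := Cl) (D := D ^ CL) hΛ1 (by positivity) h1 ?_ ?_ (by positivity)
      · calc Cl * D ^ CL ≤ Λ ^ (ν / 2) * Λ ^ (ν / 2) := by
              have : D ^ CL ≤ Λ ^ (ν / 2) := by
                rw [hD, ← Real.rpow_mul hΛ0.le]
                refine Real.rpow_le_rpow_of_exponent_le hΛ1 ?_
                have b1 : c₇ * CT * CS ^ J * CL ≤ c₇ * CT * CS ^ J * (CS + 3 + CL) := by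
                  gcongr; linarith
                linarith
              gcongr
          _ = Λ ^ ν := by rw [← Real.rpow_add hΛ0]; congr 1; ring
      · rw [div_le_iff₀ (by positivity)]; linarith
  have hARle : A * R ≤ Λ ^ (9 * ν) * ((w : ℝ) ^ 2 * H') := by
    rwa [div_le_iff₀ (by positivity)] at hy
  refine ⟨K, n, w, H', D, P, Q, hst2, hKl, ?_, hDν, hn1, hnD.trans h7D, ?_, hw1, hARle⟩
  · refine le_trans ?_ h7D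
    calc B * R ^ (ε₁ / 8) ≤ B * (Cb * Λ ^ c₆) := by gcongr
      _ = B * Cb * Λ ^ c₆ := by ring
      _ ≤ Λ ^ (c₇ / 2) * Λ ^ (c₇ / 2) := by
          have : Λ ^ c₆ ≤ Λ ^ (c₇ / 2) := Real.rpow_le_rpow_of_exponent_le hΛ1 (by linarith)
          gcongr
      _ = Λ ^ c₇ := by rw [← Real.rpow_add hΛ0]; congr 1; ring
  · exact end1 hΛ1 hA hR0 hH hst2.w1 hΛ hν1 hARle hst2.lev2 hDν

end Pool.Agent.H81.D3.CHN
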