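import Pool.Agent.H81.D3.Targets

/-!
MP_ee74d2_an, dimension 3 (`m = 2`), exponents below `10/3`: row CHS, one step of the chain with the
choice of `K`.
-/

set_option autoImplicit false

namespace Pool.Agent.H81.D3.CHS

open MeasureTheory Set
open Pool.Agent.H83.G
open Pool.Agent.H81.D3

/-- thresholds -/
theorem thr (c x : ℝ) (hx : 0 < x) : ∃ T : ℝ, 1 ≤ T ∧ ∀ Λ : ℝ, T ≤ Λ → c ≤ Λ ^ x := by
  refine ⟨max 1 ((max c 1) ^ (1 / x)), le_max_left _ _, fun Λ hΛ => ?_⟩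
  have h1 : (max c 1) ^ (1 / x) ≤ Λ := (le_max_right _ _).trans hΛ
  have h0 : (0 : ℝ) < max c 1 := lt_of_lt_of_le one_pos (le_max_right _ _)
  calc c ≤ max c 1 := le_max_left _ _
    _ = ((max c 1) ^ (1 / x)) ^ x := by
        rw [← Real.rpow_mul h0.le, one_div, inv_mul_cancel₀ hx.ne', Real.rpow_one]
    _ ≤ Λ ^ x := Real.rpow_le_rpow (by positivity) h1 hx.le

/-- upper bound from lev1 -/
theorem levu {a H H₀ D w : ℝ} (hH : 0 < H) (hH₀ : 0 < H₀) (hw : 1 ≤ w)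
    (h : H₀ ^ 2 ≤ D * (H ^ 2 * w)) : (a / (w ^ 2 * H)) ^ 2 * w ^ 3 ≤ (a / H₀) ^ 2 * D := by
  have hw0 : 0 < w := by linarith
  have e1 : (a / (w ^ 2 * H)) ^ 2 * w ^ 3 = a ^ 2 / (H ^ 2 * w) := by
    field_simp
  have e2 : (a / H₀) ^ 2 * D = a ^ 2 * D / H₀ ^ 2 := by
    field_simp
  rw [e1, e2, div_le_div_iff₀ (by positivity) (by positivity)]
  calc a ^ 2 * H₀ ^ 2 ≤ a ^ 2 * (D * (H ^ 2 * w)) := by gcongr
    _ = _ := by ring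

/-- lower bound from lev2 -/
theorem levl {a H H₀ D w : ℝ} (hH : 0 < H) (hH₀ : 0 < H₀) (hw : 1 ≤ w)
    (h : H ^ 2 * w ≤ D * H₀ ^ 2) : (a / H₀) ^ 2 ≤ D * ((a / (w ^ 2 * H)) ^ 2 * w ^ 3) := by
  have hw0 : 0 < w := by linarith
  have e1 : (a / (w ^ 2 * H)) ^ 2 * w ^ 3 = a ^ 2 / (H ^ 2 * w) := by
    field_simp
  have e2 : D * (a ^ 2 / (H ^ 2 * w)) = a ^ 2 * D / (H ^ 2 * w) := by ring
  have e3 : (a / H₀) ^ 2 = a ^ 2 / H₀ ^ 2 := by rw [div_pow]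
  rw [e1, e2, e3, div_le_div_iff₀ (by positivity) (by positivity)]
  calc a ^ 2 * (H ^ 2 * w) ≤ a ^ 2 * (D * H₀ ^ 2) := by gcongr
    _ = _ := by ring

/-- the decrease -/
theorem decr {r r' L D D' w K Λe θ : ℝ} (hr : 1 ≤ r) (hD' : 0 ≤ D')
    (hw : 0 < w) (hKr : r ^ θ ≤ 2 * K) (h1 : r' ^ 2 * (w * K) ^ 3 ≤ L ^ 2 * D')
    (h2 : L ^ 2 ≤ D * (r ^ 2 * w ^ 3)) (h3 : 8 * (D * D') ≤ Λe) (h4 : Λe ≤ r ^ θ) :
    r' ≤ r ^ (1 - θ) := by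
  have hr0 : 0 < r := by linarith
  have e1 : r' ^ 2 * K ^ 3 ≤ r ^ 2 * (D * D') := by
    have : r' ^ 2 * K ^ 3 * w ^ 3 ≤ r ^ 2 * (D * D') * w ^ 3 := by
      calc r' ^ 2 * K ^ 3 * w ^ 3 = r' ^ 2 * (w * K) ^ 3 := by ring
        _ ≤ L ^ 2 * D' := h1
        _ ≤ D * (r ^ 2 * w ^ 3) * D' := by gcongr
        _ = _ := by ring
    exact le_of_mul_le_mul_right this (by positivity)
  have hp : 0 < r ^ θ := by positivity
  have e2 : (r ^ θ) ^ 3 ≤ 8 * K ^ 3 := by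
    calc (r ^ θ) ^ 3 ≤ (2 * K) ^ 3 := by gcongr
      _ = 8 * K ^ 3 := by ring
  have e3 : r' ^ 2 * (r ^ θ) ^ 3 ≤ r ^ 2 * r ^ θ := by
    calc r' ^ 2 * (r ^ θ) ^ 3 ≤ r' ^ 2 * (8 * K ^ 3) := by gcongr
      _ = 8 * (r' ^ 2 * K ^ 3) := by ring
      _ ≤ 8 * (r ^ 2 * (D * D')) := by gcongr
      _ = r ^ 2 * (8 * (D * D')) := by ring
      _ ≤ r ^ 2 * r ^ θ := by
          have := h3.trans h4
          gcongr
  have e4 : r' ^ 2 * (r ^ θ) ^ 2 ≤ r ^ 2 := by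
    have : r' ^ 2 * (r ^ θ) ^ 2 * r ^ θ ≤ r ^ 2 * r ^ θ := by
      refine le_trans (le_of_eq ?_) e3; ring
    exact le_of_mul_le_mul_right this hp
  have e5 : r' * r ^ θ ≤ r := by
    refine le_of_pow_le_pow_left₀ (by norm_num : 2 ≠ 0) hr0.le ?_
    rw [mul_pow]; exact e4
  rw [Real.rpow_sub hr0, Real.rpow_one, le_div_iff₀ hp]
  exact e5

theorem pf_CHS : T_CHS := by
  intro C₀ hC₀ hT L N₁ β δ θ ν cb₀ C₁ hL hβ hδ hδ1 hθ hθ1 hν hνθ hcb hC₁ hθC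
  have hνθ0 : 0 < ν * θ := by positivity
  have hνθ1 : ν * θ ≤ ν * (1 / 100) := by gcongr
  have hνc0 : 0 < ν * cb₀ := by positivity
  have hM : 1 ≤ 4 / (ν * θ) := by
    rw [le_div_iff₀ hνθ0]; linarith
  obtain ⟨Ct, hCt, hT⟩ := hT L N₁ β δ (4 / (ν * θ)) hL hβ hδ hδ1 hM
  obtain ⟨T1, hT1, t1⟩ := thr 8 (ν * θ / 2) (by positivity)
  obtain ⟨T2, hT2, t2⟩ := thr Ct (ν * θ / 2 * δ) (by positivity)
  obtain ⟨T3, hT3, t3⟩ := thr Ct (ν / 2) (by positivity)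
  obtain ⟨T4, hT4, t4⟩ := thr 4 ν hν
  refine ⟨Ct + T1 + T2 + T3 + T4, by linarith, ?_⟩
  intro ε δ₁ Cb R A H₀ D H G X w K₁ n n' P Q hR hA hH₀ hC hLN hE hε hδ₁ hCb hG hX he hst hn1 hnd
    hDl hD1 hD2 hr hRw
  have hR0 : 0 < R := by linarith
  obtain ⟨Λ, hΛ⟩ : ∃ Λ : ℝ, Λ = A * R / H₀ := ⟨_, rfl⟩
  rw [← hΛ] at hC hDl hD1 hD2 hr hRw ⊢
  have hΛ1 : 1 ≤ Λ := by linarith
  have hΛ0 : 0 < Λ := by linarith
  replace t1 := t1 Λ (by linarith)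
  replace t2 := t2 Λ (by linarith)
  replace t3 := t3 Λ (by linarith)
  replace t4 := t4 Λ (by linarith)
  have hmono : ∀ x y : ℝ, x ≤ y → Λ ^ x ≤ Λ ^ y := fun x y h =>
    Real.rpow_le_rpow_of_exponent_le hΛ1 h
  have hH := hst.H0
  have hD0 := hst.D1
  have hw1 : (1 : ℝ) ≤ w := by exact_mod_cast hst.w1
  have hw0 : (0 : ℝ) < w := by linarith
  obtain ⟨r, hrdef⟩ : ∃ r : ℝ, r = A * R / ((w : ℝ) ^ 2 * H) := ⟨_, rfl⟩
  rw [← hrdef] at hr ⊢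
  have hr1 : 1 ≤ r := le_trans (Real.one_le_rpow hΛ1 hν.le) hr
  have hr0 : 0 < r := by linarith
  have hrAR : A * R = r * ((w : ℝ) ^ 2 * H) := by rw [hrdef]; field_simp
  have hn0 : (1 : ℝ) ≤ n := by exact_mod_cast hn1
  -- the size of `D`
  have hDle : D ≤ Λ ^ (ν * θ / 20) := by
    refine le_trans ?_ hD2
    calc D = D ^ (1 : ℝ) := (Real.rpow_one _).symm
      _ ≤ D ^ (C₀ + 3) := Real.rpow_le_rpow_of_exponent_le hD0 (by linarith)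
  have hDΛ : D ≤ Λ := by
    refine hDle.trans ?_
    calc Λ ^ (ν * θ / 20) ≤ Λ ^ (1 : ℝ) := hmono _ _ (by linarith)
      _ = Λ := Real.rpow_one _
  -- upper bound for `r`
  have hl1 := levu (a := A * R) (w := w) hH hH₀ hw1 hst.lev1
  have hl2 := levl (a := A * R) (w := w) hH hH₀ hw1 hst.lev2
  rw [← hΛ, ← hrdef] at hl1 hl2
  have hrΛ : r ≤ Λ ^ 2 := by
    refine le_of_pow_le_pow_left₀ (by norm_num : 2 ≠ 0) (by positivity) ?_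
    calc r ^ 2 = r ^ 2 * 1 := (mul_one _).symm
      _ ≤ r ^ 2 * (w : ℝ) ^ 3 := by gcongr; exact one_le_pow₀ hw1
      _ ≤ Λ ^ 2 * D := hl1
      _ ≤ Λ ^ 2 * Λ ^ 2 := by
          gcongr
          refine hDΛ.trans ?_
          rw [pow_two]
          exact le_mul_of_one_le_left hΛ0.le hΛ1
      _ = (Λ ^ 2) ^ 2 := by ring
  -- the number `K`
  obtain ⟨ρ, hρ⟩ : ∃ ρ : ℝ, ρ = R / (w : ℝ) ^ 2 := ⟨_, rfl⟩
  have hρR : (w : ℝ) ^ 2 * ρ = R := by rw [hρ]; field_simp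
  have hρ1 : Λ ^ (11 * ν) ≤ ρ := by
    rw [hρ, le_div_iff₀ (by positivity)]; linarith
  have hρ0 : 0 < ρ := by rw [hρ]; positivity
  obtain ⟨σ, hσ⟩ : ∃ σ : ℝ, σ = (ρ * Λ ^ (-(10 * ν))) ^ (1 / 2 : ℝ) := ⟨_, rfl⟩
  have hσ2 : σ ^ 2 = ρ * Λ ^ (-(10 * ν)) := by
    rw [hσ, ← Real.rpow_natCast, ← Real.rpow_mul (by positivity)]; norm_num
  have hσ0 : 0 ≤ σ := by rw [hσ]; positivity
  have hσΛ : σ ^ 2 * Λ ^ (10 * ν) = ρ := by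
    rw [hσ2, mul_assoc, ← Real.rpow_add hΛ0]; simp
  have hσl : Λ ^ (ν * θ) ≤ σ := by
    refine le_of_pow_le_pow_left₀ (by norm_num : 2 ≠ 0) hσ0 ?_
    rw [hσ2]
    calc (Λ ^ (ν * θ)) ^ 2 = Λ ^ (ν * θ * 2) := by rw [Real.rpow_mul hΛ0.le (ν * θ)]; norm_cast
      _ ≤ Λ ^ (11 * ν + -(10 * ν)) := hmono _ _ (by linarith)
      _ = Λ ^ (11 * ν) * Λ ^ (-(10 * ν)) := Real.rpow_add hΛ0 _ _
      _ ≤ ρ * Λ ^ (-(10 * ν)) := by gcongr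
  have hrθ : Λ ^ (ν * θ) ≤ r ^ θ := by
    calc Λ ^ (ν * θ) = (Λ ^ ν) ^ θ := Real.rpow_mul hΛ0.le _ _
      _ ≤ r ^ θ := by gcongr
  obtain ⟨m, hm⟩ : ∃ m : ℝ, m = min (r ^ θ) σ := ⟨_, rfl⟩
  have hml : Λ ^ (ν * θ) ≤ m := by rw [hm]; exact le_min hrθ hσl
  have hsq : Λ ^ (ν * θ) = Λ ^ (ν * θ / 2) * Λ ^ (ν * θ / 2) := by
    rw [← Real.rpow_add hΛ0]; congr 1; ring
  have hx8 : 8 * Λ ^ (ν * θ / 2) ≤ m := by
    refine le_trans ?_ hml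
    rw [hsq]; gcongr
  have hm2 : 2 ≤ m := by linarith
  obtain ⟨K, hKu, hKm⟩ : ∃ K : ℕ, (K : ℝ) ≤ m ∧ m ≤ 2 * K := by
    refine ⟨⌊m⌋₊, Nat.floor_le (by linarith), ?_⟩
    have := Nat.lt_floor_add_one m
    linarith
  have hKl : Λ ^ (ν * θ / 2) ≤ K := by linarith
  have hK1' : (1 : ℝ) ≤ K := by linarith
  have hK1 : 1 ≤ K := by exact_mod_cast hK1'
  have hKr : (K : ℝ) ≤ r ^ θ := hKu.trans (by rw [hm]; exact min_le_left _ _)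
  have hKσ : (K : ℝ) ≤ σ := hKu.trans (by rw [hm]; exact min_le_right _ _)
  have hKΛ : (K : ℝ) ≤ Λ := by
    calc (K : ℝ) ≤ r ^ θ := hKr
      _ ≤ (Λ ^ 2) ^ θ := by gcongr
      _ = Λ ^ (2 * θ) := by rw [Real.rpow_mul hΛ0.le]; norm_cast
      _ ≤ Λ ^ (1 : ℝ) := hmono _ _ (by linarith)
      _ = Λ := Real.rpow_one _
  have hwK : ((w : ℝ) * K) ^ 2 * Λ ^ (10 * ν) ≤ R := by
    calc ((w : ℝ) * K) ^ 2 * Λ ^ (10 * ν) = (w : ℝ) ^ 2 * ((K : ℝ) ^ 2 * Λ ^ (10 * ν)) := by ring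
      _ ≤ (w : ℝ) ^ 2 * (σ ^ 2 * Λ ^ (10 * ν)) := by gcongr
      _ = R := by rw [hσΛ, hρR]
  have hwKR : ((w : ℝ) * K) ^ 2 ≤ R := by
    refine le_trans ?_ hwK
    exact le_mul_of_one_le_right (by positivity) (Real.one_le_rpow hΛ1 (by positivity))
  -- the losses
  have hf0 : 0 < Cb * R ^ ε := by positivity
  have hRε : 1 ≤ R ^ ε := Real.one_le_rpow hR hε.le
  have hΛδ : 1 ≤ Λ ^ (C₀ * δ) := Real.one_le_rpow hΛ1 (by positivity)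
  have hDl' : Ct * Cb * R ^ ε * (K : ℝ) ^ (C₀ * δ) * n ≤ D := by
    refine le_trans ?_ hDl
    have : Ct ≤ Ct + T1 + T2 + T3 + T4 := by linarith
    gcongr
  have hKδ : 1 ≤ (K : ℝ) ^ (C₀ * δ) := Real.one_le_rpow hK1' (by positivity)
  have hCD : Ct * Cb * R ^ ε ≤ D := by
    refine le_trans ?_ hDl'
    have a1 : 0 ≤ Ct * Cb * R ^ ε := by positivity
    calc Ct * Cb * R ^ ε ≤ Ct * Cb * R ^ ε * ((K : ℝ) ^ (C₀ * δ) * n) :=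
          le_mul_of_one_le_right a1 (one_le_mul_of_one_le_of_one_le hKδ hn0)
      _ = _ := by ring
  have hCbD : Cb ≤ D := by
    refine le_trans ?_ hCD
    calc Cb ≤ Ct * Cb := le_mul_of_one_le_left (by linarith) hCt
      _ ≤ Ct * Cb * R ^ ε := le_mul_of_one_le_right (by positivity) hRε
  have hPar : Par L N₁ β C₀ Ct δ (4 / (ν * θ)) cb₀ C₁ ε δ₁ Cb R A D H w K n := by
    refine ⟨hLN, hE, hcb, hC₁, hε, hδ₁, hCb, hR, hA, hn1, ?_, ?_, hwKR, ?_, ?_, ?_, hDl', hnd⟩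
    · calc Ct ≤ Λ ^ (ν * θ / 2 * δ) := t2
        _ = (Λ ^ (ν * θ / 2)) ^ δ := Real.rpow_mul hΛ0.le _ _
        _ ≤ (K : ℝ) ^ δ := by gcongr
    · calc Cb ≤ Λ ^ (ν * θ / 20) := hCbD.trans hDle
        _ ≤ Λ ^ (ν * θ / 2) := hmono _ _ (by linarith)
        _ ≤ K := hKl
    · rw [hrAR]
      have : r ≤ (K : ℝ) ^ (4 / (ν * θ)) := by
        calc r ≤ Λ ^ 2 := hrΛ
          _ = (Λ ^ (ν * θ / 2)) ^ (4 / (ν * θ)) := by
              rw [← Real.rpow_mul hΛ0.le, show ν * θ / 2 * (4 / (ν * θ)) = (2 : ℕ) by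
                push_cast; field_simp; norm_num, Real.rpow_natCast]
          _ ≤ (K : ℝ) ^ (4 / (ν * θ)) := by gcongr
      gcongr
    · rw [hrAR]
      have h1 : (K : ℝ) ^ C₁ ≤ r ^ (1 / 2 : ℝ) := by
        calc (K : ℝ) ^ C₁ ≤ (r ^ θ) ^ C₁ := by gcongr
          _ = r ^ (θ * C₁) := (Real.rpow_mul hr0.le _ _).symm
          _ ≤ r ^ (1 / 2 : ℝ) := Real.rpow_le_rpow_of_exponent_le hr1 hθC
      have h2 : Ct ≤ r ^ (1 / 2 : ℝ) := by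
        calc Ct ≤ Λ ^ (ν / 2) := t3
          _ = (Λ ^ ν) ^ (1 / 2 : ℝ) := by rw [← Real.rpow_mul hΛ0.le]; congr 1; ring
          _ ≤ r ^ (1 / 2 : ℝ) := by gcongr
      calc (K : ℝ) ^ C₁ * (Ct * ((w : ℝ) ^ 2 * H))
          ≤ r ^ (1 / 2 : ℝ) * (r ^ (1 / 2 : ℝ) * ((w : ℝ) ^ 2 * H)) := by gcongr
        _ = r ^ (1 / 2 + 1 / 2 : ℝ) * ((w : ℝ) ^ 2 * H) := by rw [Real.rpow_add hr0]; ring
        _ = r * ((w : ℝ) ^ 2 * H) := by norm_num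
    · rw [← hrdef]
      have h1 : r ^ (-cb₀) ≤ Λ ^ (-(ν * cb₀)) := by
        calc r ^ (-cb₀) ≤ (Λ ^ ν) ^ (-cb₀) :=
              Real.rpow_le_rpow_of_nonpos (by positivity) hr (by linarith)
          _ = Λ ^ (-(ν * cb₀)) := by rw [← Real.rpow_mul hΛ0.le]; congr 1; ring
      have h2 : D * D ^ C₀ ≤ Λ ^ (ν * cb₀ / 2) := by
        refine le_trans ?_ hD1
        calc D * D ^ C₀ = D ^ (1 + C₀) := by rw [Real.rpow_add (by linarith), Real.rpow_one]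
          _ ≤ D ^ (C₀ + 3) := Real.rpow_le_rpow_of_exponent_le hD0 (by linarith)
      calc Ct * Cb * D ^ C₀ * R ^ ε * r ^ (-cb₀) = Ct * Cb * R ^ ε * D ^ C₀ * r ^ (-cb₀) := by ring
        _ ≤ D * D ^ C₀ * Λ ^ (-(ν * cb₀)) := by gcongr
        _ ≤ Λ ^ (ν * cb₀ / 2) * Λ ^ (-(ν * cb₀)) := by gcongr
        _ = Λ ^ (ν * cb₀ / 2 + -(ν * cb₀)) := (Real.rpow_add hΛ0 _ _).symm
        _ ≤ Λ ^ (0 : ℝ) := hmono _ _ (by linarith)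
        _ = 1 := Real.rpow_zero _
  obtain ⟨H', P', Q', hst'⟩ := hT cb₀ C₁ ε δ₁ Cb R A H₀ D H G X w K K₁ n n' P Q hPar hH₀ hG hX he
    hst
  have hcast : ((w * K : ℕ) : ℝ) = (w : ℝ) * K := by push_cast; ring
  refine ⟨w * K, H', P', Q', Nat.le_mul_of_pos_right _ (by omega), hst', ?_, ?_⟩
  · rw [hcast]; exact hwK
  rw [hcast]
  rcases le_total (r ^ θ) σ with hc | hc
  · left
    have hmr : m = r ^ θ := by rw [hm]; exact min_eq_left hc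
    have hH' := hst'.H0
    have hl1' := levu (a := A * R) (w := (w : ℝ) * K) hH' hH₀
      (one_le_mul_of_one_le_of_one_le hw1 hK1') (by have := hst'.lev1; rwa [hcast] at this)
    rw [← hΛ] at hl1'
    refine decr (L := Λ) (D := D) (D' := D ^ C₀) (w := w) (K := K) (Λe := Λ ^ (ν * θ)) hr1
      (by positivity) hw0 (by rw [← hmr]; exact hKm)
      hl1' hl2 ?_ hrθ
    have h2 : D * D ^ C₀ ≤ Λ ^ (ν * θ / 20) := by
      refine le_trans ?_ hD2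
      calc D * D ^ C₀ = D ^ (1 + C₀) := by rw [Real.rpow_add (by linarith), Real.rpow_one]
        _ ≤ D ^ (C₀ + 3) := Real.rpow_le_rpow_of_exponent_le hD0 (by linarith)
    calc 8 * (D * D ^ C₀) ≤ Λ ^ (ν * θ / 2) * Λ ^ (ν * θ / 2) := by
          have h3 : D * D ^ C₀ ≤ Λ ^ (ν * θ / 2) := h2.trans (hmono _ _ (by linarith))
          gcongr
      _ = Λ ^ (ν * θ) := hsq.symm
  · right
    have hmσ : m = σ := by rw [hm]; exact min_eq_right hc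
    rw [hmσ] at hKm
    calc R = (w : ℝ) ^ 2 * (σ ^ 2 * Λ ^ (10 * ν)) := by rw [hσΛ, hρR]
      _ ≤ (w : ℝ) ^ 2 * ((2 * K) ^ 2 * Λ ^ (10 * ν)) := by gcongr
      _ = ((w : ℝ) * K) ^ 2 * (4 * Λ ^ (10 * ν)) := by ring
      _ ≤ ((w : ℝ) * K) ^ 2 * (Λ ^ ν * Λ ^ (10 * ν)) := by gcongr
      _ = ((w : ℝ) * K) ^ 2 * Λ ^ (11 * ν) := by
          rw [← Real.rpow_add hΛ0]; congr 2; ring

end Pool.Agent.H81.D3.CHS
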