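import Pool.Agent.H82.LB.Targets2
import Pool.Agent.H91.EL.Targets
import Pool.Agent.H81.GT.TargetsT

/-!
MP_ee74d2_an, dimension 3 (`m = 2`), exponents below `10/3`: the chain of planar steps.
Definitions. Page H81_D3N.md.
-/

set_option autoImplicit false

namespace Pool.Agent.H81.D3

open MeasureTheory Set
open Pool.Agent.H83.G
open Pool.Agent.H82.G4 (aw uk)
open Pool.Agent.H22.G4 (nv Ind)
open scoped ENNReal NNReal RealInnerProductSpace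

/-- the zero set of `V` in the plane of directions: a circle, a line, a point, or empty -/
def Cz (V : Z 2) : Set (E 2) := {η | ph (nv η) V = 0}

/-- the point `z` is narrow at scale `K` with the circles `V j`: the significant caps of radius
`K⁻⁶` of the cell of side `K¹²` of `z` are at distance at most `1/K` of the circles -/
def Nar (β : E 2 → ℂ) (N : ℕ) (K h : ℝ) (n : ℕ) (G : Z 2 → ℂ) (z : Z 2) (V : Fin n → Z 2) :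
    Prop :=
  (∀ j, ‖V j‖ = 1) ∧ ∀ k ∈ Ks 2 (K ^ 6)⁻¹,
    ENNReal.ofReal h ≤ aw N (K ^ 6) 0 (uk β (K ^ 6) G k) (cb ((K ^ 6) ^ 2) z) →
    ∃ j, ∃ η ∈ Cz (V j), ‖ctr (K ^ 6)⁻¹ k - η‖ ≤ K⁻¹

/-- the rescaled function of a cap -/
noncomputable def RS (β : E 2 → ℂ) (η : E 2) (s : ℝ) (G : Z 2 → ℂ) (ζ : Z 2) : ℂ :=
  ((s ^ 4 : ℝ) : ℂ) * (cp β η s (Ld η s ζ) * G (Ld η s ζ))

/-- the rescaled function of the lattice cap `κ` of radius `1/w` -/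
noncomputable def Gc (β : E 2 → ℂ) (w : ℕ) (G : Z 2 → ℂ) (κ : Fin 2 → ℤ) : Z 2 → ℂ :=
  RS β (ctr (w : ℝ)⁻¹ κ) (w : ℝ)⁻¹ G

/-- the coordinates of the lattice cap `κ` of radius `1/w` -/
noncomputable def Lc (w : ℕ) (κ : Fin 2 → ℤ) (z : Z 2) : Z 2 :=
  Lo (ctr (w : ℝ)⁻¹ κ) (w : ℝ)⁻¹ z

/-- the normalized energy -/
noncomputable def En43 (A R : ℝ) (G : Z 2 → ℂ) : ℝ :=
  A ^ (4 / 3 : ℝ) * R ^ (1 / 3 : ℝ) * ∫ ζ, ‖G ζ‖ ^ 2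

/-- Theorem G at the exponent `10/3` with given constants -/
def E43 (L : ℕ) (ε C : ℝ) : Prop := ∀ (R A H : ℝ) (G : Z 2 → ℂ) (X : Finset (Z 2)), 1 ≤ R →
  0 < A → 0 < H → Cls L (1 / 4) R A G → Sep X → (∀ z ∈ X, H ≤ ‖TF G z‖) →
  (X.card : ℝ) * H ^ (10 / 3 : ℝ) ≤ C * R ^ ε * En43 A R G

/-- Lemma B at one function with given constants -/
def LemN (L : ℕ) (β : E 2 → ℂ) (N : ℕ) (cb₀ C₁ ε δ₁ C : ℝ) : Prop :=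
  ∀ (R Λ K A H : ℝ) (n : ℕ) (G : Z 2 → ℂ) (X : Finset (Z 2)), 1 ≤ R → C ≤ K → K ^ C₁ ≤ Λ →
  R ^ δ₁ ≤ n → 0 < A → 0 < H → Λ * H ≤ A * R → Cls L (1 / 4) R A G → Sep X →
  (∀ z ∈ X, ∀ V : Fin n → Z 2, ¬ Nar β N K (K ^ (-100 : ℝ) * H) n G z V) →
  (X.card : ℝ) * H ^ (10 / 3 : ℝ) ≤ C * R ^ ε * Λ ^ (-cb₀) * En43 A R G

/-- Lemma B with all constants -/
def LemA (cb₀ C₁ : ℝ) (L₀ : ℕ) : Prop := ∀ (L : ℕ) (β : E 2 → ℂ), L₀ ≤ L → IsPU β → ∀ ε : ℝ,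
  0 < ε → ∃ δ₁ : ℝ, 0 < δ₁ ∧ δ₁ ≤ ε ∧ ∃ N₀ : ℕ, ∀ N : ℕ, N₀ ≤ N → ∃ C : ℝ, 1 ≤ C ∧
  LemN L β N cb₀ C₁ ε δ₁ C

/-- Theorem G with all constants -/
def EA43 : Prop := ∀ (L : ℕ) (ε : ℝ), 10 ≤ L → 0 < ε → ∃ C : ℝ, 1 ≤ C ∧ E43 L ε C

/-- planks: tag, cap, point in the coordinates of the cap -/
abbrev Pq := (Fin 2 → ℤ) × (Fin 2 → ℤ) × Z 2

/-- pairs of a tag and a cap -/
abbrev Tq := (Fin 2 → ℤ) × (Fin 2 → ℤ)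

/-- separation of the planks with the same tag and cap -/
def PSep (P : Finset Pq) : Prop :=
  ∀ p ∈ P, ∀ p' ∈ P, p ≠ p' → p.1 = p'.1 → p.2.1 = p'.2.1 → 1 ≤ ‖p.2.2 - p'.2.2‖

open scoped Classical in
/-- at most `D` tags for each cap -/
def PTag (D : ℝ) (P : Finset Pq) : Prop :=
  ∀ κ : Fin 2 → ℤ, (((P.filter fun p => p.2.1 = κ).image fun p => p.1).card : ℝ) ≤ D

open scoped Classical in
/-- the tags and caps of the planks -/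
noncomputable def Ti (P : Finset Pq) : Finset Tq := P.image fun p => (p.1, p.2.1)

open scoped Classical in
/-- the incidences of a point with given tag -/
noncomputable def Qzt (Q : Finset (Z 2 × Pq)) (z : Z 2) (t : Fin 2 → ℤ) : Finset (Z 2 × Pq) :=
  Q.filter fun q => q.1 = z ∧ q.2.1 = t

open scoped Classical in
/-- the incidences of a point -/
noncomputable def Qz1 (Q : Finset (Z 2 × Pq)) (z : Z 2) : Finset (Z 2 × Pq) :=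
  Q.filter fun q => q.1 = z

/-- the state of the chain at the caps of radius `1/w`: planks `P` on which the function of the cap
is at least `H`, and incidences `Q` of points of `X` and planks -/
structure St (β : E 2 → ℂ) (G : Z 2 → ℂ) (e H₀ D : ℝ) (X : Finset (Z 2)) (w : ℕ) (H : ℝ)
    (P : Finset Pq) (Q : Finset (Z 2 × Pq)) : Prop where
  w1 : 1 ≤ w
  D1 : 1 ≤ D
  H0 : 0 < H
  pk : ∀ p ∈ P, p.2.1 ∈ Ks 2 (w : ℝ)⁻¹ ∧ H ≤ ‖TF (Gc β w G p.2.1) p.2.2‖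
  sep : PSep P
  tg : PTag D P
  rel : ∀ q ∈ Q, q.1 ∈ X ∧ q.2 ∈ P ∧ ‖Lc w q.2.2.1 q.1 - q.2.2.2‖ ≤ D
  low : e ≤ D * (Q.card * H ^ (10 / 3 : ℝ) * (w : ℝ) ^ (2 / 3 : ℝ))
  lev1 : H₀ ^ 2 ≤ D * (H ^ 2 * w)
  lev2 : H ^ 2 * w ≤ D * H₀ ^ 2

/-- a state with tags: the tag is a cap of radius `1/K₁`, and the tags of the planks of a point are
near `n` circles -/
structure StT (β : E 2 → ℂ) (G : Z 2 → ℂ) (e H₀ D : ℝ) (X : Finset (Z 2)) (K₁ n w : ℕ) (H : ℝ)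
    (P : Finset Pq) (Q : Finset (Z 2 × Pq)) : Prop extends St β G e H₀ D X w H P Q where
  K1 : 1 ≤ K₁
  Kw : K₁ ≤ w
  tgd : ∀ p ∈ P, ‖ctr (w : ℝ)⁻¹ p.2.1 - ctr (K₁ : ℝ)⁻¹ p.1‖ ≤ 100 / K₁ - 100 / w
  tdeg : ∀ z t, ((Qzt Q z t).card : ℝ) ≤ D * w / K₁
  top : ∀ z, ∃ V : Fin n → Z 2, (∀ j, ‖V j‖ = 1) ∧ ∀ q ∈ Q, q.1 = z →
    ∃ j, ∃ η ∈ Cz (V j), ‖ctr (K₁ : ℝ)⁻¹ q.2.1 - η‖ ≤ 3 / K₁

/-- the hypotheses on the parameters of a step -/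
structure Par (L N₁ : ℕ) (β : E 2 → ℂ) (C₀ C δ M cb₀ C₁ ε δ₁ Cb R A D H : ℝ) (w K n : ℕ) :
    Prop where
  hL : LemN L β N₁ cb₀ C₁ ε δ₁ Cb
  hE : E43 L ε Cb
  cb : 0 < cb₀
  C1 : 1 ≤ C₁
  e0 : 0 < ε
  d1 : 0 < δ₁
  Cb1 : 1 ≤ Cb
  R1 : 1 ≤ R
  A0 : 0 < A
  n1 : 1 ≤ n
  KC : C ≤ (K : ℝ) ^ δ
  KCb : Cb ≤ K
  wK : ((w : ℝ) * K) ^ 2 ≤ R
  up : A * R ≤ (K : ℝ) ^ M * ((w : ℝ) ^ 2 * H)
  lo : (K : ℝ) ^ C₁ * (C * ((w : ℝ) ^ 2 * H)) ≤ A * R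
  br : C * Cb * D ^ C₀ * R ^ ε * (A * R / ((w : ℝ) ^ 2 * H)) ^ (-cb₀) ≤ 1
  Dl : C * Cb * R ^ ε * (K : ℝ) ^ (C₀ * δ) * n ≤ D
  nd : R ^ δ₁ ≤ n

open scoped Classical in
/-- the node data of a step: popular incidences `Q₁`, wave packets `Wf` of the functions of the
planks, of amplitude at least `a`, at least `k` near each point of a plank in `Q₁` -/
structure Nd (β : E 2 → ℂ) (N : ℕ) (δ : ℝ) (G : Z 2 → ℂ) (H a k D : ℝ) (w K n : ℕ)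
    (P : Finset Pq) (Q Q₁ : Finset (Z 2 × Pq)) (Wf : Tq → Finset (Pk 2)) (V : Pq → Fin n → Z 2) :
    Prop where
  a0 : (K : ℝ) ^ (-50 : ℝ) * H ≤ a
  k1 : 1 ≤ k
  sub : Q₁ ⊆ Q
  pop : (Q.card : ℝ) ≤ D * Q₁.card
  emp : ∀ i, i ∉ Ti P → Wf i = ∅
  wf : ∀ i, ∀ W ∈ Wf i, W.1 ∈ Ks 2 (K : ℝ)⁻¹ ∧ a ≤ al N β ((K : ℝ) ^ 2) δ (Gc β w G i.2) W
  kl : ∀ q ∈ Q₁, k ≤
    (((Wf (q.2.1, q.2.2.1)).filter fun W => near ((K : ℝ) ^ 2) δ W q.2.2.2).card : ℝ)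
  ku : ∀ q ∈ Q₁,
    (((Wf (q.2.1, q.2.2.1)).filter fun W => near ((K : ℝ) ^ 2) δ W q.2.2.2).card : ℝ) ≤ D * K
  vn : ∀ p j, ‖V p j‖ = 1
  cr : ∀ q ∈ Q₁, ∀ W ∈ Wf (q.2.1, q.2.2.1), near ((K : ℝ) ^ 2) δ W q.2.2.2 →
    ∃ j, ∃ η ∈ Cz (V q.2 j), ‖ctr (K : ℝ)⁻¹ W.1 - η‖ ≤ 3 / K
  rd : ∀ p : ℝ, p = 2 ∨ p = 7 / 2 → (Q₁.card : ℝ) * H ^ p ≤
    D * k ^ (p / 2 - 1) * a ^ p * (∑ i ∈ Ti P, ((Wf i).card : ℝ)) * ((w : ℝ) * K) ^ 4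

end Pool.Agent.H81.D3
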