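import Pool.Agent.H81.D3.Defs
import Pool.Agent.H92.EZ.Targets

/-!
MP_ee74d2_an, dimension 3 (`m = 2`), exponents below `10/3`: the chain of planar steps. Targets.
Page H81_D3N.md.
-/

set_option autoImplicit false

namespace Pool.Agent.H81.D3

open MeasureTheory Set
open Pool.Agent.H83.G
open Pool.Agent.H82.G4 (aw uk)
open Pool.Agent.H22.G4 (nv Ind)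
open Pool.Agent.H91.EL (Conf Sg gr qB ll)
open Pool.Agent.H92.EZ (sgm dsg)
open Pool.Agent.H81.GT (tz SymE IsX Gf SEC Q1at)
open Pool.Agent.H83.LS (EE BCd)
open scoped ENNReal NNReal RealInnerProductSpace

/-! ### inputs -/

/-- LNC: Lemma B in the form of the chain -/
def T_LNC : Prop := Pool.Agent.H82.LB.T_LEMN → ∃ (cb₀ C₁ : ℝ) (L₀ : ℕ), 0 < cb₀ ∧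
  1 ≤ C₁ ∧ 10 ≤ L₀ ∧ LemA cb₀ C₁ L₀

/-- TEC: Theorem G in the form of the chain -/
def T_TEC : Prop := Pool.Agent.H82.LB.T_T43 → EA43

/-! ### caps -/

/-- RSE: rescaled functions of caps, in the class -/
def T_RSE : Prop := ∀ (L : ℕ) (β : E 2 → ℂ), IsPU β → ∃ C : ℝ, 1 ≤ C ∧ ∀ (κ R A s : ℝ) (η : E 2)
  (G : Z 2 → ℂ), 0 ≤ κ → κ ≤ 1 / 2 → 0 < A → 0 < s → s ≤ 1 → 1 ≤ R * s ^ 2 → Cls L κ R A G →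
  Cls L κ (R * s ^ 2) (C * A) (RS β η s G) ∧
  (∀ z, TF (RS β η s G) (Lo η s z) = TP β η s G z) ∧
  ∫ ζ, ‖RS β η s G ζ‖ ^ 2 = s ^ 4 * ∫ ζ, ‖cp β η s ζ * G ζ‖ ^ 2

/-- GCE: energy of the caps of radius `1/w` -/
def T_GCE : Prop := ∀ (L : ℕ) (β : E 2 → ℂ) (R A : ℝ) (G : Z 2 → ℂ) (w : ℕ), IsPU β → 1 ≤ R →
  0 < A → 1 ≤ w → Cls L (1 / 4) R A G →
  ∑ κ ∈ Ks 2 (w : ℝ)⁻¹, ∫ ζ, ‖Gc β w G κ ζ‖ ^ 2 ≤ ((w : ℝ) ^ 4)⁻¹ * ∫ ζ, ‖G ζ‖ ^ 2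

/-- CLW: the class at a smaller scale -/
def T_CLW : Prop := ∀ (L : ℕ) (κ R A K : ℝ) (G : Z 2 → ℂ), 0 ≤ κ → 1 ≤ K → K ^ 2 ≤ R → 0 < A →
  Cls L κ R A G → Cls L κ (K ^ 2) (A * (R / K ^ 2)) G

/-- CMP: composition of lattice caps; coordinates; caps in the support -/
def T_CMP : Prop := ∃ C : ℝ, 1 ≤ C ∧
  (∀ (w K : ℕ) (κ k : Fin 2 → ℤ) (z : Z 2), 1 ≤ w → 1 ≤ K →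
    Lo (ctr (K : ℝ)⁻¹ k) (K : ℝ)⁻¹ (Lc w κ z) = Lc (w * K) ((K : ℤ) • κ + k) z ∧
    ctr ((w * K : ℕ) : ℝ)⁻¹ ((K : ℤ) • κ + k) = ctr (w : ℝ)⁻¹ κ + (w : ℝ)⁻¹ • ctr (K : ℝ)⁻¹ k) ∧
  (∀ (w : ℕ) (κ : Fin 2 → ℤ) (z z' : Z 2), 1 ≤ w → κ ∈ Ks 2 (w : ℝ)⁻¹ →
    Lc w κ (z - z') = Lc w κ z - Lc w κ z' ∧ ‖Lc w κ z‖ ≤ C * ‖z‖ ∧
    ‖z‖ ≤ C * (w : ℝ) ^ 2 * ‖Lc w κ z‖ ∧ (∃ y, Lc w κ y = z) ∧ ‖ctr (w : ℝ)⁻¹ κ‖ ≤ 5) ∧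
  (∀ (L : ℕ) (β : E 2 → ℂ) (R A : ℝ) (G : Z 2 → ℂ) (w : ℕ) (κ : Fin 2 → ℤ) (x : Z 2), IsPU β →
    1 ≤ R → 0 < A → 1 ≤ w → Cls L (1 / 4) R A G → TF (Gc β w G κ) x ≠ 0 →
    κ ∈ Ks 2 (w : ℝ)⁻¹ ∧ ‖ctr (w : ℝ)⁻¹ κ‖ ≤ 5 / 4 + 1 / w) ∧
  ∀ (w K : ℕ) (κ' : Fin 2 → ℤ) (J : Finset (Fin 2 → ℤ)), 1 ≤ w → 1 ≤ K →
    (∀ κ ∈ J, ∃ k ∈ Ks 2 (K : ℝ)⁻¹, κ' = (K : ℤ) • κ + k) → (J.card : ℝ) ≤ C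

/-- CIR: lattice points near a circle -/
def T_CIR : Prop := ∃ C : ℝ, 1 ≤ C ∧ ∀ (K r : ℝ) (V : Z 2) (x : E 2) (J : Finset (Fin 2 → ℤ)),
  1 ≤ K → 0 ≤ r → ‖V‖ = 1 →
  (∀ k ∈ J, ‖ctr K⁻¹ k - x‖ ≤ r ∧ ∃ η ∈ Cz V, ‖ctr K⁻¹ k - η‖ ≤ 3 / K) →
  (J.card : ℝ) ≤ C * (r * K + 1)

/-- TRC: translated circles -/
def T_TRC : Prop := ∀ (V : Z 2) (b : E 2), ‖V‖ = 1 → ∃ V' : Z 2, ‖V'‖ = 1 ∧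
  ∀ η, η ∈ Cz V → b + η ∈ Cz V'

/-! ### one node -/

/-- DCX: wave packet decomposition at one point -/
def T_DCX : Prop := ∀ (m L : ℕ) (β : E m → ℂ) (Ψ : Z m → ℂ) (ψ : Z m → ℝ) (δ M : ℝ), IsPU β →
  IsPsi Ψ ψ → 0 < δ → δ ≤ 1 / 4 → ∃ C : ℝ, 0 < C ∧ ∀ (κ R A : ℝ) (G : Z m → ℂ)
  (S : Finset (Pk m)) (z : Z m), 0 ≤ κ → κ ≤ 1 / 2 → 1 ≤ R → 0 < A → Cls L κ R A G →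
  (∀ W ∈ S, W.1 ∈ Ks m (sR R)) → (∀ W : Pk m, W.1 ∈ Ks m (sR R) → near R δ W z → W ∈ S) →
  ‖TF G z - ∑ W ∈ S, Fp β ψ R δ G W z‖ ≤ C * A * R ^ (-M)

/-- NFI: the planks near a point; number of planks near a point in one cap -/
def T_NFI : Prop := ∀ δ : ℝ, 0 < δ → δ ≤ 1 / 4 → ∃ C : ℝ, 1 ≤ C ∧
  (∀ (R : ℝ) (z : Z 2), 1 ≤ R → ∃ S : Finset (Pk 2), (S.card : ℝ) ≤ C * R ^ (2 : ℝ) ∧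
    ∀ W : Pk 2, W ∈ S ↔ W.1 ∈ Ks 2 (sR R) ∧ near R δ W z) ∧
  ∀ (R : ℝ) (z : Z 2) (k : Fin 2 → ℤ) (S : Finset (Pk 2)), 1 ≤ R →
    (∀ W ∈ S, W.1 = k ∧ near R δ W z) → (S.card : ℝ) ≤ C * R ^ (4 * δ)

/-- NRW: at a narrow point the caps of the planks of large amplitude are near the circles -/
def T_NRW : Prop := ∀ (L N₁ : ℕ) (β : E 2 → ℂ) (δ : ℝ), IsPU β → 0 < δ → δ ≤ 1 / 100 →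
  ∃ N₀ : ℕ, ∀ N : ℕ, N₀ ≤ N → ∃ C : ℝ, 1 ≤ C ∧ ∀ (R A h : ℝ) (K n : ℕ) (G : Z 2 → ℂ) (z : Z 2)
  (V : Fin n → Z 2) (W : Pk 2), 1 ≤ R → C ≤ K → (K : ℝ) ^ 2 ≤ R → 0 < A → 0 < h →
  Cls L (1 / 4) R A G → W.1 ∈ Ks 2 (K : ℝ)⁻¹ → near ((K : ℝ) ^ 2) δ W z →
  (K : ℝ) ^ (-50 : ℝ) * h ≤ al N β ((K : ℝ) ^ 2) δ G W →
  Nar β N₁ K ((K : ℝ) ^ (-100 : ℝ) * h) n G z V →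
  ∃ j, ∃ η ∈ Cz (V j), ‖ctr (K : ℝ)⁻¹ W.1 - η‖ ≤ 3 / K

open scoped Classical in
/-- NSA: one point of a node. There are a class `i` of amplitudes and a finite set `S` of planks
near the point, of this class, whose sum is large -/
def T_NSA : Prop := ∃ C₀ : ℝ, 1 ≤ C₀ ∧ ∀ (L N₁ : ℕ) (β : E 2 → ℂ) (Ψ : Z 2 → ℂ) (ψ : Z 2 → ℝ)
  (δ M : ℝ), 10 ≤ L → IsPU β → IsPsi Ψ ψ → 0 < δ → δ ≤ 1 / 100 → 1 ≤ M → ∃ N₀ : ℕ, ∀ N : ℕ,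
  N₀ ≤ N → ∃ C : ℝ, 1 ≤ C ∧ ∀ (R A H : ℝ) (K n : ℕ) (G : Z 2 → ℂ) (z : Z 2)
  (V : Fin n → Z 2), 1 ≤ R → C ≤ (K : ℝ) ^ δ → (K : ℝ) ^ 2 ≤ R → 0 < A → 0 < H →
  A * R ≤ (K : ℝ) ^ M * H → 1 ≤ n → Cls L (1 / 4) R A G → H ≤ ‖TF G z‖ →
  Nar β N₁ K ((K : ℝ) ^ (-100 : ℝ) * H) n G z V →
  ∃ i < ⌊(K : ℝ) ^ δ⌋₊, ∃ S : Finset (Pk 2),
  (∀ W : Pk 2, W ∈ S ↔ W.1 ∈ Ks 2 (K : ℝ)⁻¹ ∧ near ((K : ℝ) ^ 2) δ W z ∧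
    2 ^ i * ((K : ℝ) ^ (-50 : ℝ) * H) ≤ al N β ((K : ℝ) ^ 2) δ G W ∧
    al N β ((K : ℝ) ^ 2) δ G W < 2 ^ (i + 1) * ((K : ℝ) ^ (-50 : ℝ) * H)) ∧
  H ≤ C * (K : ℝ) ^ δ * ‖∑ W ∈ S, Fp β ψ ((K : ℝ) ^ 2) δ G W z‖ ∧
  (S.card : ℝ) ≤ C * n * (K : ℝ) ^ (1 + C₀ * δ) ∧
  ∀ W ∈ S, ∃ j, ∃ η ∈ Cz (V j), ‖ctr (K : ℝ)⁻¹ W.1 - η‖ ≤ 3 / K

open scoped Classical in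
/-- NST: one node. Types `(i, j)`: amplitude `2^i K^{-50} H`, multiplicity `2^j` -/
def T_NST : Prop := ∃ C₀ : ℝ, 1 ≤ C₀ ∧ ∀ (L N₁ : ℕ) (β : E 2 → ℂ)
  (δ M : ℝ), 10 ≤ L → IsPU β → 0 < δ → δ ≤ 1 / 100 → 1 ≤ M → ∃ N₀ : ℕ, ∀ N : ℕ,
  N₀ ≤ N → ∃ C : ℝ, 1 ≤ C ∧ ∀ (R A H : ℝ) (K n : ℕ) (G : Z 2 → ℂ) (X : Finset (Z 2))
  (V : Z 2 → Fin n → Z 2), 1 ≤ R → C ≤ (K : ℝ) ^ δ → (K : ℝ) ^ 2 ≤ R → 0 < A → 0 < H →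
  A * R ≤ (K : ℝ) ^ M * H → 1 ≤ n → Cls L (1 / 4) R A G → Sep X → (∀ z ∈ X, H ≤ ‖TF G z‖) →
  (∀ z ∈ X, Nar β N₁ K ((K : ℝ) ^ (-100 : ℝ) * H) n G z (V z)) →
  ∃ (Y : ℕ → ℕ → Finset (Z 2)) (Wf : ℕ → ℕ → Finset (Pk 2)),
  (∀ z ∈ X, ∃ i < ⌊(K : ℝ) ^ δ⌋₊, ∃ j < ⌊(K : ℝ) ^ δ⌋₊, z ∈ Y i j) ∧ ∀ i j, Y i j ⊆ X ∧
  (∀ W ∈ Wf i j, W.1 ∈ Ks 2 (K : ℝ)⁻¹ ∧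
    2 ^ i * ((K : ℝ) ^ (-50 : ℝ) * H) ≤ al N β ((K : ℝ) ^ 2) δ G W) ∧
  (∀ z ∈ Y i j, 2 ^ j ≤ ((Wf i j).filter fun W => near ((K : ℝ) ^ 2) δ W z).card ∧
    ((Wf i j).filter fun W => near ((K : ℝ) ^ 2) δ W z).card ≤ 2 ^ (j + 1) ∧
    (2 : ℝ) ^ j ≤ C * n * (K : ℝ) ^ (1 + C₀ * δ) ∧
    ∀ W ∈ Wf i j, near ((K : ℝ) ^ 2) δ W z →
      ∃ j', ∃ η ∈ Cz (V z j'), ‖ctr (K : ℝ)⁻¹ W.1 - η‖ ≤ 3 / K) ∧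
  ∀ P : ℝ, P = 2 ∨ P = 7 / 2 → ((Y i j).card : ℝ) * H ^ P ≤
    C * (K : ℝ) ^ (C₀ * δ) * ((2 : ℝ) ^ j) ^ (P / 2 - 1) *
      (2 ^ i * ((K : ℝ) ^ (-50 : ℝ) * H)) ^ P * (Wf i j).card * (K : ℝ) ^ 4

/-- PAM: from the amplitude of a plank to a point of the function of the child -/
def T_PAM : Prop := ∀ (L N' : ℕ) (β : E 2 → ℂ) (δ : ℝ), 10 ≤ L → IsPU β → 0 < δ → δ ≤ 1 / 100 →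
  ∃ N₀ : ℕ, ∀ N : ℕ, N₀ ≤ N → ∃ C : ℝ, 1 ≤ C ∧ ∀ (R A a : ℝ) (w K : ℕ) (κ : Fin 2 → ℤ)
  (W : Pk 2) (G : Z 2 → ℂ), 1 ≤ w → 1 ≤ K → ((w : ℝ) * K) ^ 2 ≤ R → 0 < A → 0 < a →
  Cls L (1 / 4) R A G → κ ∈ Ks 2 (w : ℝ)⁻¹ → W.1 ∈ Ks 2 (K : ℝ)⁻¹ →
  a ≤ al N β ((K : ℝ) ^ 2) δ (Gc β w G κ) W →
  (K : ℤ) • κ + W.1 ∈ Ks 2 ((w * K : ℕ) : ℝ)⁻¹ ∧
  ∃ x : Z 2, a ≤ C * ‖TF (Gc β (w * K) G ((K : ℤ) • κ + W.1)) x‖ ∧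
    (1 + ‖((K : ℝ) ^ 2) ^ (-δ) • x - zc W.2‖) ^ N' ≤
      C * (A * R / (((w : ℝ) * K) ^ 2 * a)) ^ 2

/-! ### counting -/

/-- CTG: planks, tags and caps -/
def T_CTG : Prop := ∀ (D : ℝ) (w : ℕ) (P : Finset Pq) (F : (Fin 2 → ℤ) → ℝ), 0 ≤ D →
  (∀ p ∈ P, p.2.1 ∈ Ks 2 (w : ℝ)⁻¹) → PSep P → PTag D P → (∀ κ, 0 ≤ F κ) →
  (∀ κ ∈ Ks 2 (w : ℝ)⁻¹, ∀ Y : Finset (Z 2), Sep Y → (∀ x ∈ Y, ∃ t, (t, κ, x) ∈ P) →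
    (Y.card : ℝ) ≤ F κ) →
  (P.card : ℝ) ≤ D * ∑ κ ∈ Ks 2 (w : ℝ)⁻¹, F κ

/-- PTS: separated points in a plank and in a ball -/
def T_PTS : Prop := ∃ C : ℝ, 1 ≤ C ∧
  (∀ (D : ℝ) (w : ℕ) (κ : Fin 2 → ℤ) (x : Z 2) (Y : Finset (Z 2)), 1 ≤ D → 1 ≤ w →
    κ ∈ Ks 2 (w : ℝ)⁻¹ → Sep Y → (∀ z ∈ Y, ‖Lc w κ z - x‖ ≤ D) →
    (Y.card : ℝ) ≤ C * D ^ 4 * (w : ℝ) ^ 4) ∧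
  (∀ (D : ℝ) (x : Z 2) (Y : Finset (Z 2)), 1 ≤ D → Sep Y → (∀ z ∈ Y, ‖z - x‖ ≤ D) →
    (Y.card : ℝ) ≤ C * D ^ 4) ∧
  ∀ Y : Finset (Z 2), ∃ Y' ⊆ Y, Sep Y' ∧ ∀ z ∈ Y, ∃ z' ∈ Y', ‖z - z'‖ ≤ 1

/-- BA2: the trivial bound -/
def T_BA2 : Prop := ∀ (L : ℕ), ∃ C : ℝ, 1 ≤ C ∧ ∀ (R A H : ℝ) (G : Z 2 → ℂ) (X : Finset (Z 2)),
  1 ≤ R → 0 ≤ H → Cls L (1 / 4) R A G → Sep X → (∀ z ∈ X, H ≤ ‖TF G z‖) →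
  (X.card : ℝ) * H ^ 2 ≤ C * ∫ ζ, ‖G ζ‖ ^ 2

/-- GSA: the broad planks -/
def T_GSA : Prop := ∀ (L : ℕ) (β : E 2 → ℂ), 10 ≤ L → IsPU β → ∃ C : ℝ, 1 ≤ C ∧
  ∀ (N₁ : ℕ) (cb₀ C₁ ε δ₁ Cb R A D H K : ℝ) (w n : ℕ) (G : Z 2 → ℂ) (P : Finset Pq),
  LemN L β N₁ cb₀ C₁ ε δ₁ Cb → 0 < ε → 0 < δ₁ → 1 ≤ Cb → 1 ≤ R → 0 < A → 0 < H → 1 ≤ D →
  1 ≤ w → (w : ℝ) ^ 2 ≤ R → Cb ≤ K → K ^ C₁ ≤ A * R / ((w : ℝ) ^ 2 * H) → R ^ δ₁ ≤ n →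
  Cls L (1 / 4) R A G → PSep P → PTag D P →
  (∀ p ∈ P, p.2.1 ∈ Ks 2 (w : ℝ)⁻¹ ∧ H ≤ ‖TF (Gc β w G p.2.1) p.2.2‖ ∧
    ∀ V : Fin n → Z 2, ¬ Nar β N₁ K (K ^ (-100 : ℝ) * H) n (Gc β w G p.2.1) p.2.2 V) →
  (P.card : ℝ) * (w : ℝ) ^ 4 * H ^ (10 / 3 : ℝ) * (w : ℝ) ^ (2 / 3 : ℝ) ≤
    C * D * Cb * R ^ ε * (A * R / ((w : ℝ) ^ 2 * H)) ^ (-cb₀) * En43 A R G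

/-- GSB: Theorem G for planks -/
def T_GSB : Prop := ∀ (L : ℕ) (β : E 2 → ℂ), 10 ≤ L → IsPU β → ∃ C : ℝ, 1 ≤ C ∧
  ∀ (ε Cb R A D H : ℝ) (w : ℕ) (G : Z 2 → ℂ) (P : Finset Pq),
  E43 L ε Cb → 0 < ε → 1 ≤ Cb → 1 ≤ R → 0 < A → 0 < H → 1 ≤ D → 1 ≤ w → (w : ℝ) ^ 2 ≤ R →
  Cls L (1 / 4) R A G → PSep P → PTag D P →
  (∀ p ∈ P, p.2.1 ∈ Ks 2 (w : ℝ)⁻¹ ∧ H ≤ ‖TF (Gc β w G p.2.1) p.2.2‖) →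
  (P.card : ℝ) * (w : ℝ) ^ 4 * H ^ (10 / 3 : ℝ) * (w : ℝ) ^ (2 / 3 : ℝ) ≤
    C * D * Cb * R ^ ε * En43 A R G

/-- LRW: lower bound for the height in a state -/
def T_LRW : Prop := ∃ C₀ : ℝ, 1 ≤ C₀ ∧ ∀ (L : ℕ) (β : E 2 → ℂ), 10 ≤ L → IsPU β →
  ∃ C : ℝ, 1 ≤ C ∧ ∀ (R A H₀ D H : ℝ) (G : Z 2 → ℂ) (X : Finset (Z 2)) (w : ℕ) (P : Finset Pq)
  (Q : Finset (Z 2 × Pq)), 1 ≤ R → 0 < A → Cls L (1 / 4) R A G → Sep X → 0 < En43 A R G →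
  St β G (En43 A R G) H₀ D X w H P Q → (w : ℝ) ^ 2 ≤ R →
  (A * R / ((w : ℝ) ^ 2 * H)) ^ (4 / 3 : ℝ) ≤ C * D ^ C₀ * (R / (w : ℝ) ^ 2)

/-- MON: monotonicity in the constants -/
def T_MON : Prop := (∀ (β : E 2 → ℂ) (G : Z 2 → ℂ) (e H₀ D D' : ℝ) (X : Finset (Z 2)) (w : ℕ)
    (H : ℝ) (P : Finset Pq) (Q : Finset (Z 2 × Pq)), 0 < e → D ≤ D' → St β G e H₀ D X w H P Q →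
    St β G e H₀ D' X w H P Q ∧ Q.Nonempty) ∧
  (∀ (β : E 2 → ℂ) (G : Z 2 → ℂ) (e H₀ D D' : ℝ) (X : Finset (Z 2)) (K₁ n w : ℕ)
    (H : ℝ) (P : Finset Pq) (Q : Finset (Z 2 × Pq)), 0 < e → D ≤ D' →
    StT β G e H₀ D X K₁ n w H P Q → StT β G e H₀ D' X K₁ n w H P Q) ∧
  (∀ (L : ℕ) (ε C C' : ℝ), C ≤ C' → E43 L ε C → E43 L ε C') ∧
  ∀ (L : ℕ) (β : E 2 → ℂ) (N : ℕ) (cb₀ C₁ ε δ₁ C C' : ℝ), 1 ≤ C → C ≤ C' →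
    LemN L β N cb₀ C₁ ε δ₁ C → LemN L β N cb₀ C₁ ε δ₁ C'

/-! ### the global step -/

/-- GSN: the node data of a step -/
def T_GSN : Prop := ∃ C₀ : ℝ, 1 ≤ C₀ ∧ ∀ (L N₁ : ℕ) (β : E 2 → ℂ) (δ M : ℝ), 10 ≤ L → IsPU β →
  0 < δ → δ ≤ 1 / 100 → 1 ≤ M → ∃ N₀ : ℕ, ∀ N : ℕ, N₀ ≤ N → ∃ C : ℝ, 1 ≤ C ∧
  ∀ (cb₀ C₁ ε δ₁ Cb R A H₀ D H : ℝ) (G : Z 2 → ℂ) (X : Finset (Z 2)) (w K n : ℕ)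
  (P : Finset Pq) (Q : Finset (Z 2 × Pq)),
  Par L N₁ β C₀ C δ M cb₀ C₁ ε δ₁ Cb R A D H w K n → 0 < H₀ → Cls L (1 / 4) R A G → Sep X →
  0 < En43 A R G → St β G (En43 A R G) H₀ D X w H P Q →
  ∃ (a k : ℝ) (Q₁ : Finset (Z 2 × Pq)) (Wf : Tq → Finset (Pk 2)) (V : Pq → Fin n → Z 2),
  Nd β N δ G H a k (D ^ C₀) w K n P Q Q₁ Wf V

/-- GSC: the children -/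
def T_GSC : Prop := ∃ C₀ : ℝ, 1 ≤ C₀ ∧ ∀ (L : ℕ) (β : E 2 → ℂ) (δ M : ℝ), 10 ≤ L → IsPU β →
  0 < δ → δ ≤ 1 / 100 → 1 ≤ M → ∃ N₀ : ℕ, ∀ N : ℕ, N₀ ≤ N → ∃ C : ℝ, 1 ≤ C ∧
  ∀ (R A e H₀ D H a k : ℝ) (G : Z 2 → ℂ) (X : Finset (Z 2)) (w K n : ℕ)
  (P : Finset Pq) (Q Q₁ : Finset (Z 2 × Pq)) (Wf : Tq → Finset (Pk 2)) (V : Pq → Fin n → Z 2),
  1 ≤ R → 0 < A → C ≤ (K : ℝ) ^ δ → ((w : ℝ) * K) ^ 2 ≤ R →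
  A * R ≤ (K : ℝ) ^ M * ((w : ℝ) ^ 2 * H) → C * (K : ℝ) ^ (C₀ * δ) ≤ D →
  Cls L (1 / 4) R A G → Sep X → St β G e H₀ D X w H P Q →
  Nd β N δ G H a k D w K n P Q Q₁ Wf V →
  ∃ (P' : Finset Pq) (Q' : Finset (Z 2 × Pq)),
  (∀ p ∈ P', p.2.1 ∈ Ks 2 ((w * K : ℕ) : ℝ)⁻¹ ∧ a / C ≤ ‖TF (Gc β (w * K) G p.2.1) p.2.2‖) ∧
  PSep P' ∧ PTag (D ^ C₀) P' ∧
  (∀ q ∈ Q', q.1 ∈ X ∧ q.2 ∈ P' ∧ ‖Lc (w * K) q.2.2.1 q.1 - q.2.2.2‖ ≤ D ^ C₀) ∧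
  k * Q₁.card ≤ D ^ C₀ * Q'.card ∧
  ∑ i ∈ Ti P, ((Wf i).card : ℝ) ≤ D ^ C₀ * P'.card ∧
  (∀ q' ∈ Q', ∃ q ∈ Q, q.1 = q'.1 ∧ q.2.1 = q'.2.1 ∧ ∃ l ∈ Ks 2 (K : ℝ)⁻¹,
    q'.2.2.1 = (K : ℤ) • q.2.2.1 + l ∧
    ∃ j, ∃ η ∈ Cz (V q.2 j), ‖ctr (K : ℝ)⁻¹ l - η‖ ≤ 3 / K) ∧
  (∀ p' ∈ P', ∃ p ∈ P, p.1 = p'.1 ∧ ∃ l ∈ Ks 2 (K : ℝ)⁻¹, p'.2.1 = (K : ℤ) • p.2.1 + l) ∧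
  ∀ z t, ((Qzt Q' z t).card : ℝ) ≤ D ^ C₀ * K * (Qzt Q z t).card

/-- GSE: the numbers of a step -/
def T_GSE : Prop := ∀ (L H H' k K w q n e : ℝ), 1 ≤ L → 0 < H → 0 < H' → 1 ≤ k → 1 ≤ K → 1 ≤ w →
  0 < q → 0 ≤ n → k ≤ L * K → q * H ^ 2 ≤ L * (H' ^ 2 * (n * (w * K) ^ 4)) →
  q * H ^ (7 / 2 : ℝ) ≤ L * (k ^ (3 / 4 : ℝ) * (H' ^ (7 / 2 : ℝ) * (n * (w * K) ^ 4))) →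
  n * (w * K) ^ 4 * (H' ^ (10 / 3 : ℝ) * (w * K) ^ (2 / 3 : ℝ)) ≤ L * e →
  e ≤ L * (q * H ^ (10 / 3 : ℝ) * w ^ (2 / 3 : ℝ)) →
  e ≤ L ^ 150 * (k * q * H' ^ (10 / 3 : ℝ) * (w * K) ^ (2 / 3 : ℝ)) ∧
  H ^ 2 * w ≤ L ^ 150 * (H' ^ 2 * (w * K)) ∧ H' ^ 2 * (w * K) ≤ L ^ 150 * (H ^ 2 * w)

/-- GST: the step from `w` to `w K` -/
def T_GST : Prop := ∃ C₀ : ℝ, 1 ≤ C₀ ∧ ∀ (L N₁ : ℕ) (β : E 2 → ℂ) (δ M : ℝ), 10 ≤ L → IsPU β →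
  0 < δ → δ ≤ 1 / 100 → 1 ≤ M → ∃ C : ℝ, 1 ≤ C ∧ ∀ (cb₀ C₁ ε δ₁ Cb R A H₀ D H : ℝ)
  (G : Z 2 → ℂ) (X : Finset (Z 2)) (w K n : ℕ) (P : Finset Pq) (Q : Finset (Z 2 × Pq)),
  Par L N₁ β C₀ C δ M cb₀ C₁ ε δ₁ Cb R A D H w K n → 0 < H₀ → Cls L (1 / 4) R A G → Sep X →
  0 < En43 A R G → St β G (En43 A R G) H₀ D X w H P Q →
  ∃ (H' : ℝ) (P' : Finset Pq) (Q' : Finset (Z 2 × Pq)) (V : Pq → Fin n → Z 2),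
  St β G (En43 A R G) H₀ (D ^ C₀) X (w * K) H' P' Q' ∧ (∀ p j, ‖V p j‖ = 1) ∧
  (∀ q' ∈ Q', ∃ q ∈ Q, q.1 = q'.1 ∧ q.2.1 = q'.2.1 ∧ ∃ l ∈ Ks 2 (K : ℝ)⁻¹,
    q'.2.2.1 = (K : ℤ) • q.2.2.1 + l ∧
    ∃ j, ∃ η ∈ Cz (V q.2 j), ‖ctr (K : ℝ)⁻¹ l - η‖ ≤ 3 / K) ∧
  (∀ p' ∈ P', ∃ p ∈ P, p.1 = p'.1 ∧ ∃ l ∈ Ks 2 (K : ℝ)⁻¹, p'.2.1 = (K : ℤ) • p.2.1 + l) ∧
  ∀ z t, ((Qzt Q' z t).card : ℝ) ≤ D ^ C₀ * K * (Qzt Q z t).card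

/-- ST0: the start -/
def T_ST0 : Prop := ∀ (L : ℕ) (β : E 2 → ℂ), 10 ≤ L → IsPU β → ∃ C : ℝ, 1 ≤ C ∧
  ∀ (R A H D : ℝ) (G : Z 2 → ℂ) (X : Finset (Z 2)), 1 ≤ R → 0 < A → 0 < H → 1 ≤ D →
  Cls L (1 / 4) R A G → Sep X → (∀ z ∈ X, H ≤ ‖TF G z‖) →
  En43 A R G ≤ D * (X.card * H ^ (10 / 3 : ℝ)) →
  ∃ (P : Finset Pq) (Q : Finset (Z 2 × Pq)),
  St β G (En43 A R G) H (C ^ 4 * D) X 1 (H / C) P Q ∧ (∀ z, (Qz1 Q z).card ≤ 1) ∧ ∀ p ∈ P, p.1 = 0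

/-- TOP: the first state with tags -/
def T_TOP : Prop := ∃ C₀ : ℝ, 1 ≤ C₀ ∧ ∀ (L N₁ : ℕ) (β : E 2 → ℂ) (δ M : ℝ), 10 ≤ L → IsPU β →
  0 < δ → δ ≤ 1 / 100 → 1 ≤ M → ∃ C : ℝ, 1 ≤ C ∧ ∀ (cb₀ C₁ ε δ₁ Cb R A H D : ℝ)
  (G : Z 2 → ℂ) (X : Finset (Z 2)) (K n : ℕ),
  Par L N₁ β C₀ C δ M cb₀ C₁ ε δ₁ Cb R A D H 1 K n → 0 < H → Cls L (1 / 4) R A G → Sep X →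
  0 < En43 A R G → (∀ z ∈ X, H ≤ ‖TF G z‖) → En43 A R G ≤ D * (X.card * H ^ (10 / 3 : ℝ)) →
  ∃ (H' : ℝ) (P : Finset Pq) (Q : Finset (Z 2 × Pq)),
  StT β G (En43 A R G) H (D ^ C₀) X K n K H' P Q

/-- TSTq: the later steps with tags, for a fixed exponent -/
def TSTq (C₀ : ℝ) : Prop := ∀ (L N₁ : ℕ) (β : E 2 → ℂ) (δ M : ℝ), 10 ≤ L → IsPU β →
  0 < δ → δ ≤ 1 / 100 → 1 ≤ M → ∃ C : ℝ, 1 ≤ C ∧ ∀ (cb₀ C₁ ε δ₁ Cb R A H₀ D H : ℝ)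
  (G : Z 2 → ℂ) (X : Finset (Z 2)) (w K K₁ n n' : ℕ) (P : Finset Pq) (Q : Finset (Z 2 × Pq)),
  Par L N₁ β C₀ C δ M cb₀ C₁ ε δ₁ Cb R A D H w K n → 0 < H₀ → Cls L (1 / 4) R A G → Sep X →
  0 < En43 A R G → StT β G (En43 A R G) H₀ D X K₁ n' w H P Q →
  ∃ (H' : ℝ) (P' : Finset Pq) (Q' : Finset (Z 2 × Pq)),
  StT β G (En43 A R G) H₀ (D ^ C₀) X K₁ n' (w * K) H' P' Q'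

/-- TST: the later steps with tags -/
def T_TST : Prop := ∃ C₀ : ℝ, 1 ≤ C₀ ∧ TSTq C₀

/-- CHS: one step of the chain, with the choice of `K`. `Λ = A R / H₀` -/
def T_CHS : Prop := ∀ C₀ : ℝ, 1 ≤ C₀ → TSTq C₀ → ∀ (L N₁ : ℕ) (β : E 2 → ℂ)
  (δ θ ν cb₀ C₁ : ℝ), 10 ≤ L → IsPU β → 0 < δ → δ ≤ 1 / 100 → 0 < θ → θ ≤ 1 / 100 → 0 < ν →
  ν ≤ θ / 10 → 0 < cb₀ → 1 ≤ C₁ → θ * C₁ ≤ 1 / 2 → ∃ C : ℝ, 1 ≤ C ∧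
  ∀ (ε δ₁ Cb R A H₀ D H : ℝ) (G : Z 2 → ℂ) (X : Finset (Z 2)) (w K₁ n n' : ℕ) (P : Finset Pq)
  (Q : Finset (Z 2 × Pq)), 1 ≤ R → 0 < A → 0 < H₀ → C ≤ A * R / H₀ →
  LemN L β N₁ cb₀ C₁ ε δ₁ Cb → E43 L ε Cb → 0 < ε → 0 < δ₁ → 1 ≤ Cb → Cls L (1 / 4) R A G →
  Sep X → 0 < En43 A R G → StT β G (En43 A R G) H₀ D X K₁ n' w H P Q → 1 ≤ n → R ^ δ₁ ≤ n →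
  C * Cb * R ^ ε * (A * R / H₀) ^ (C₀ * δ) * n ≤ D →
  D ^ (C₀ + 3) ≤ (A * R / H₀) ^ (ν * cb₀ / 2) → D ^ (C₀ + 3) ≤ (A * R / H₀) ^ (ν * θ / 20) →
  (A * R / H₀) ^ ν ≤ A * R / ((w : ℝ) ^ 2 * H) → (w : ℝ) ^ 2 * (A * R / H₀) ^ (11 * ν) ≤ R →
  ∃ (w' : ℕ) (H' : ℝ) (P' : Finset Pq) (Q' : Finset (Z 2 × Pq)), w ≤ w' ∧
  StT β G (En43 A R G) H₀ (D ^ C₀) X K₁ n' w' H' P' Q' ∧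
  (w' : ℝ) ^ 2 * (A * R / H₀) ^ (10 * ν) ≤ R ∧
  (A * R / ((w' : ℝ) ^ 2 * H') ≤ (A * R / ((w : ℝ) ^ 2 * H)) ^ (1 - θ) ∨
    R ≤ (w' : ℝ) ^ 2 * (A * R / H₀) ^ (11 * ν))

/-- CHN: the chain. `Λ = A R / H` -/
def T_CHN : Prop := ∀ (cb₀ C₁ : ℝ) (L₀ : ℕ), 0 < cb₀ → 1 ≤ C₁ → 10 ≤ L₀ → LemA cb₀ C₁ L₀ →
  EA43 → ∃ θ : ℝ, 0 < θ ∧ θ ≤ 1 / 100 ∧ ∀ ν : ℝ, 0 < ν → ν ≤ θ / 10 → ∃ c₆ : ℝ, 0 < c₆ ∧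
  c₆ ≤ 1 / 12 ∧ ∀ (L : ℕ) (β : E 2 → ℂ) (ε₁ B : ℝ), L₀ ≤ L → IsPU β → 0 < ε₁ → 1 ≤ B →
  ∃ C : ℝ, 1 ≤ C ∧ ∀ (R A H : ℝ) (G : Z 2 → ℂ) (X : Finset (Z 2)), 1 ≤ R → 0 < A → 0 < H →
  C ≤ A * R / H → Cls L (1 / 4) R A G → Sep X → (∀ z ∈ X, H ≤ ‖TF G z‖) → 0 < En43 A R G →
  R ^ ε₁ * (A * R / H) ^ (-c₆) * En43 A R G ≤ X.card * H ^ (10 / 3 : ℝ) →
  ∃ (K₁ n w : ℕ) (H' D : ℝ) (P : Finset Pq) (Q : Finset (Z 2 × Pq)),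
  StT β G (En43 A R G) H D X K₁ n w H' P Q ∧ (A * R / H) ^ (θ / 2) ≤ K₁ ∧
  B * R ^ (ε₁ / 8) ≤ D ∧ D ≤ (A * R / H) ^ (ν / 100) ∧ 1 ≤ n ∧ (n : ℝ) ≤ D ∧
  (A * R / H) ^ (1 / 2 : ℝ) ≤ w ∧ (w : ℝ) ^ 2 * (A * R / H) ^ (10 * ν) ≤ R ∧
  A * R ≤ (A * R / H) ^ (9 * ν) * ((w : ℝ) ^ 2 * H')

/-! ### one ball -/

/-- H6: number of planks in a ball of radius `w²` -/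
def T_H6 : Prop := ∃ C₀ : ℝ, 1 ≤ C₀ ∧ ∀ (L : ℕ) (β : E 2 → ℂ) (δ : ℝ), 10 ≤ L → IsPU β →
  0 < δ → ∃ C : ℝ, 1 ≤ C ∧ ∀ (R A D h : ℝ) (w : ℕ) (G : Z 2 → ℂ) (z₀ : Z 2)
  (P : Finset ((Fin 2 → ℤ) × Z 2)), 1 ≤ w → (w : ℝ) ^ 2 ≤ R → 0 < A → 0 < h → 1 ≤ D →
  Cls L (1 / 4) R A G → (∀ p ∈ P, p.1 ∈ Ks 2 (w : ℝ)⁻¹ ∧ h ≤ ‖TF (Gc β w G p.1) p.2‖ ∧
    ∃ z, ‖z - z₀‖ ≤ (w : ℝ) ^ 2 ∧ ‖Lc w p.1 z - p.2‖ ≤ D) →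
  (∀ p ∈ P, ∀ p' ∈ P, p ≠ p' → p.1 = p'.1 → 1 ≤ ‖p.2 - p'.2‖) →
  (P.card : ℝ) * h ^ 2 ≤ C * D ^ C₀ * (w : ℝ) ^ δ * (A * R) ^ 2

open scoped Classical in
/-- PRN: pruning -/
def T_PRN : Prop := ∀ (α β : Type) (F : Finset (α × β)) (s t : ℝ), 0 ≤ s → 0 ≤ t →
  s * (F.image fun e => e.1).card + t * (F.image fun e => e.2).card < F.card →
  ∃ F' ⊆ F, F'.Nonempty ∧ (∀ e ∈ F', s ≤ ((F'.filter fun e' => e'.1 = e.1).card : ℝ) ∧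
    t ≤ ((F'.filter fun e' => e'.2 = e.2).card : ℝ))

open scoped Classical in
/-- BLA: choice of the ball and of one circle for each point -/
def T_BLA : Prop := ∃ C₀ : ℝ, 1 ≤ C₀ ∧ ∀ (L : ℕ) (β : E 2 → ℂ), 10 ≤ L → IsPU β →
  ∃ C : ℝ, 1 ≤ C ∧ ∀ (ε Cb R A H₀ D H : ℝ) (G : Z 2 → ℂ) (X : Finset (Z 2))
  (K₁ n w : ℕ) (P : Finset Pq) (Q : Finset (Z 2 × Pq)), 1 ≤ R → 0 < A → 0 < H₀ → 0 < ε →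
  1 ≤ Cb → E43 L ε Cb → Cls L (1 / 4) R A G → Sep X → (∀ z ∈ X, H₀ ≤ ‖TF G z‖) →
  0 < En43 A R G → StT β G (En43 A R G) H₀ D X K₁ n w H P Q → (w : ℝ) ^ 2 ≤ R →
  C * Cb * R ^ ε ≤ D → 1 ≤ n → (n : ℝ) ≤ D →
  ∃ (q : Zi 2) (F : Finset (Z 2 × Pq)) (V : Z 2 → Z 2), F ⊆ Q ∧ F.Nonempty ∧
  (∀ e ∈ F, cb ((w : ℝ) ^ 2 / 2) e.1 = q) ∧ (∀ z, ‖V z‖ = 1) ∧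
  (∀ e ∈ F, ∃ η ∈ Cz (V e.1), ‖ctr (K₁ : ℝ)⁻¹ e.2.1 - η‖ ≤ 3 / K₁) ∧
  (w : ℝ) * (F.image fun e => e.1).card + (w : ℝ) ^ 4 * (F.image fun e => e.2).card <
    D ^ C₀ * F.card

/-- BLL: the configuration in one ball of radius `w²` -/
def T_BLL : Prop := ∃ C₀ : ℝ, 1 ≤ C₀ ∧ ∀ (L : ℕ) (β : E 2 → ℂ) (ε : ℝ), 10 ≤ L → IsPU β →
  0 < ε → ∃ C : ℝ, 1 ≤ C ∧ ∀ (Cb R A H₀ D D₂ H : ℝ) (G : Z 2 → ℂ) (X : Finset (Z 2))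
  (K₁ n w : ℕ) (P : Finset Pq) (Q : Finset (Z 2 × Pq)), 1 ≤ R → 0 < A → 0 < H₀ → 1 ≤ Cb →
  E43 L ε Cb → Cls L (1 / 4) R A G → Sep X → (∀ z ∈ X, H₀ ≤ ‖TF G z‖) → 0 < En43 A R G →
  StT β G (En43 A R G) H₀ D X K₁ n w H P Q → (w : ℝ) ^ 2 ≤ R → C * Cb * R ^ ε ≤ D → 1 ≤ n →
  (n : ℝ) ≤ D → D ≤ D₂ → A * R ≤ D₂ * ((w : ℝ) ^ 2 * H) → 10000 * D₂ ^ C₀ ≤ K₁ →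
  ∃ (z₀ : Z 2) (Xb : Finset (Z 2)) (Pb : Finset Pq) (I : Z 2 → Pq → Prop),
  Conf (w : ℝ) (D₂ ^ C₀) ((K₁ : ℝ) / 10000) Xb Pb (fun p => ctr (w : ℝ)⁻¹ p.2.1) I ∧
  Xb.Nonempty ∧ Pb ⊆ P ∧ (∀ z ∈ Xb, z + z₀ ∈ X) ∧
  ∀ z ∈ Xb, ∀ p ∈ Pb, I z p → ‖Lc w p.2.1 (z + z₀) - p.2.2‖ ≤ D

/-! ### the end -/

/-- GL1: the quadric at the centres of the planks -/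
def T_GL1 : Prop := ∃ C : ℝ, 1 ≤ C ∧ ∀ (ρ D K lam : ℝ) (nn a c₀ : Z 2), 1 ≤ ρ → 1 ≤ D → 1 ≤ K →
  K ≤ ρ → ‖nn‖ = 1 → |lam| * ρ ^ 2 ≤ D → ‖a‖ ≤ ρ ^ 2 → ‖c₀‖ ≤ D * ρ ^ 2 →
  ∃ (α c : ℝ) (b : Z 2), |α| ≤ ρ⁻¹ ^ 2 ∧ ‖b‖ ≤ 1 ∧ (1 / 2 * ρ⁻¹ ^ 2 ≤ |α| ∨ 1 / 2 ≤ ‖b‖) ∧
  ∀ (z y : Z 2) (η : E 2), ‖z‖ ≤ ρ ^ 2 → ‖η‖ ≤ 3 → ‖Lo η ρ⁻¹ (y - z)‖ ≤ D →
  |Sg lam nn a z| ≤ D * ρ ^ 2 / K → |qB (gr lam nn a z) (ll η)| ≤ D / K →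
  |sgm α b c (y - c₀)| ≤ C * D ^ 5 * ρ ^ 2 / K ∧ |dsg α b (y - c₀) η| ≤ C * D ^ 5 / K

/-- GLU: the original wave has no planar configuration with large `K` -/
def T_GLU : Prop := ∃ C₀ : ℝ, 1 ≤ C₀ ∧ ∀ (κ δ : ℝ) (a : EE 3 → ℂ) (X χ : ℝ → ℂ) (β : E 2 → ℂ),
  κ ≤ 1 / 8 → SymE 2 κ a → IsX X χ → IsPU β → 0 < δ → ∃ C : ℝ, 1 ≤ C ∧
  ∀ (R A D D₂ K H : ℝ) (w : ℕ) (f : EE 3 → ℂ) (z₀ : Z 2) (Xb : Finset (Z 2)) (Pb : Finset Pq)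
  (I : Z 2 → Pq → Prop), C ≤ R → BCd A f → 0 < A → 1 ≤ D → D ≤ D₂ → 0 < H → 1 ≤ w → 1 ≤ K →
  Conf (w : ℝ) D₂ K Xb Pb (fun p => ctr (w : ℝ)⁻¹ p.2.1) I → Xb.Nonempty →
  (∀ p ∈ Pb, p.2.1 ∈ Ks 2 (w : ℝ)⁻¹ ∧ H ≤ ‖TF (Gc β w (Gf X R a f) p.2.1) p.2.2‖) →
  PSep Pb → PTag D Pb → (∀ z ∈ Xb, R ≤ tz (z + z₀) ∧ tz (z + z₀) ≤ 2 * R) →
  (∀ z ∈ Xb, ∀ p ∈ Pb, I z p → ‖Lc w p.2.1 (z + z₀) - p.2.2‖ ≤ D) →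
  C * D * (w : ℝ) ^ 2 ≤ R → C * D₂ ≤ R → A * R ≤ D₂ * ((w : ℝ) ^ 2 * H) →
  K ≤ C * R ^ δ * D₂ ^ C₀

/-- the level set estimate with exponent `2 + x` for waves, at times between `R` and `2R` -/
def WLx (x : ℝ) : Prop := ∀ (κ ε : ℝ) (a : EE 3 → ℂ) (X χ : ℝ → ℂ), κ ≤ 1 / 8 → SymE 2 κ a →
  IsX X χ → 0 < ε → ∃ C : ℝ, 0 < C ∧ ∀ (R A H : ℝ) (f : EE 3 → ℂ) (Y : Finset (Z 2)), 1 ≤ R →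
  0 < A → 0 < H → BCd A f → Sep Y →
  (∀ z ∈ Y, R ≤ tz z ∧ tz z ≤ 2 * R ∧ H ≤ ‖TF (Gf X R a f) z‖) →
  (Y.card : ℝ) * H ^ (2 + x) ≤
    C * R ^ ε * A ^ x * R ^ (x - 1) * ∫ ζ, ‖Gf X R a f ζ‖ ^ 2

/-- WLT: the level set estimate below `10/3` -/
def T_WLT : Prop := ∃ c₆ : ℝ, 0 < c₆ ∧ c₆ ≤ 1 / 12 ∧ ∀ x : ℝ, 4 / 3 - c₆ ≤ x → x ≤ 4 / 3 → WLx x

/-- SECW: from the level sets to `SEC` -/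
def T_SECW : Prop := ∀ x q : ℝ, 0 < x → WLx x → 2 + x < q → SEC 2 (1 / 8) q

/-- FIN: Q1 below `10/3` -/
def T_FIN : Prop := ∃ p₀ : ℝ, p₀ < 10 / 3 ∧ ∀ p : ℝ, p₀ ≤ p → Q1at 2 p

end Pool.Agent.H81.D3
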