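import Pool.Agent.H81.D3.Targets
import Pool.Agent.H83.D3N.CVT
import Pool.Agent.H92.EZ.WLD

/-!
MP_ee74d2_an, dimension 3 (`m = 2`), exponents below `10/3`: row WLT, the level set estimate for
waves below the exponent `10/3`.
-/

set_option autoImplicit false

namespace Pool.Agent.H81.D3.WLT

open MeasureTheory Set
open scoped ENNReal NNReal RealInnerProductSpace
open Pool.Agent.H83.G
open Pool.Agent.H83.LS (EE BCd)
open Pool.Agent.H81.D3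
open Pool.Agent.H81.GT (tz SymE IsX Gf)

/-- the class is monotone in the amplitude -/
theorem cls_mono {L : ℕ} {κ R A A' : ℝ} {G : Z 2 → ℂ} (hA : 0 ≤ A) (h : A ≤ A')
    (hG : Cls L κ R A G) : Cls L κ R A' G := by
  refine ⟨hG.1, hG.2.1, fun φ hφ η s r z₀ hs hs1 hr hrR => ?_⟩
  refine (hG.2.2 φ hφ η s r z₀ hs hs1 hr hrR).trans (ENNReal.ofReal_le_ofReal ?_)
  have : 0 < r := by linarith
  gcongr

/-- thresholds -/
theorem thr (c x : ℝ) (hx : 0 < x) : ∃ T : ℝ, 1 ≤ T ∧ ∀ Λ : ℝ, T ≤ Λ → c ≤ Λ ^ x := by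
  refine ⟨max 1 ((max c 1) ^ (1 / x)), le_max_left _ _, fun Λ hΛ => ?_⟩
  have h1 : (max c 1) ^ (1 / x) ≤ Λ := (le_max_right _ _).trans hΛ
  have h0 : (0 : ℝ) < max c 1 := lt_of_lt_of_le one_pos (le_max_right _ _)
  calc c ≤ max c 1 := le_max_left _ _
    _ = ((max c 1) ^ (1 / x)) ^ x := by
        rw [← Real.rpow_mul h0.le, one_div, inv_mul_cancel₀ hx.ne', Real.rpow_one]
    _ ≤ Λ ^ x := Real.rpow_le_rpow (by positivity) h1 hx.le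

/-- from `10/3` to `2 + x` -/
theorem conv {y H A R I Cs C' ε₁ c₆ x : ℝ} (hR : 1 ≤ R) (hA : 0 < A) (hH : 0 < H) (hI : 0 ≤ I)
    (hCs : 1 ≤ Cs) (hC' : 0 ≤ C') (hx1 : 4 / 3 - c₆ ≤ x) (hx2 : x ≤ 4 / 3) (hc₆ : c₆ ≤ 1)
    (hsup : H ≤ Cs * A * R)
    (h : y * H ^ (10 / 3 : ℝ) ≤ C' * R ^ ε₁ * (A * R / H) ^ (-c₆) *
      (A ^ (4 / 3 : ℝ) * R ^ (1 / 3 : ℝ) * I)) :
    y * H ^ (2 + x) ≤ C' * Cs * R ^ ε₁ * A ^ x * R ^ (x - 1) * I := by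
  have hR0 : 0 < R := by linarith
  have hΛ0 : 0 < A * R / H := by positivity
  have e1 : y * H ^ (2 + x) = y * H ^ (10 / 3 : ℝ) * H ^ (x - 4 / 3) := by
    rw [mul_assoc, ← Real.rpow_add hH]
    congr 2; ring
  have hp : 0 < H ^ (x - 4 / 3) := by positivity
  have e2 : y * H ^ (2 + x) ≤ C' * R ^ ε₁ * (A * R / H) ^ (-c₆) *
      (A ^ (4 / 3 : ℝ) * R ^ (1 / 3 : ℝ) * I) * H ^ (x - 4 / 3) := by
    rw [e1]; gcongr
  have e3 : (A * R / H) ^ (-c₆) ≤ Cs * (A * R / H) ^ (x - 4 / 3) := by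
    have h1 : (A * R / H) ^ (-c₆) = (A * R / H) ^ (-(c₆ + (x - 4 / 3))) *
        (A * R / H) ^ (x - 4 / 3) := by
      rw [← Real.rpow_add hΛ0]; congr 1; ring
    rw [h1]
    have h2 : (A * R / H) ^ (-(c₆ + (x - 4 / 3))) ≤ Cs := by
      rw [Real.rpow_neg hΛ0.le, ← Real.inv_rpow hΛ0.le]
      have h3 : (A * R / H)⁻¹ ≤ Cs := by
        rw [inv_div, div_le_iff₀ (by positivity)]; linarith
      calc ((A * R / H)⁻¹) ^ (c₆ + (x - 4 / 3)) ≤ Cs ^ (c₆ + (x - 4 / 3)) :=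
            Real.rpow_le_rpow (by positivity) h3 (by linarith)
        _ ≤ Cs ^ (1 : ℝ) := Real.rpow_le_rpow_of_exponent_le hCs (by linarith)
        _ = Cs := Real.rpow_one _
    gcongr
  refine e2.trans ?_
  have e4 : (A * R / H) ^ (x - 4 / 3) * H ^ (x - 4 / 3) = A ^ (x - 4 / 3) * R ^ (x - 4 / 3) := by
    rw [← Real.mul_rpow hΛ0.le hH.le, div_mul_cancel₀ _ hH.ne', Real.mul_rpow hA.le hR0.le]
  have e5 : A ^ (x - 4 / 3) * A ^ (4 / 3 : ℝ) = A ^ x := by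
    rw [← Real.rpow_add hA]; congr 1; ring
  have e6 : R ^ (x - 4 / 3) * R ^ (1 / 3 : ℝ) = R ^ (x - 1) := by
    rw [← Real.rpow_add hR0]; congr 1; ring
  calc C' * R ^ ε₁ * (A * R / H) ^ (-c₆) * (A ^ (4 / 3 : ℝ) * R ^ (1 / 3 : ℝ) * I) *
        H ^ (x - 4 / 3)
      ≤ C' * R ^ ε₁ * (Cs * (A * R / H) ^ (x - 4 / 3)) *
        (A ^ (4 / 3 : ℝ) * R ^ (1 / 3 : ℝ) * I) * H ^ (x - 4 / 3) := by gcongr
    _ = C' * Cs * R ^ ε₁ * ((A * R / H) ^ (x - 4 / 3) * H ^ (x - 4 / 3)) *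
        (A ^ (4 / 3 : ℝ) * R ^ (1 / 3 : ℝ)) * I := by ring
    _ = C' * Cs * R ^ ε₁ * (A ^ (x - 4 / 3) * A ^ (4 / 3 : ℝ)) *
        (R ^ (x - 4 / 3) * R ^ (1 / 3 : ℝ)) * I := by rw [e4]; ring
    _ = _ := by rw [e5, e6]

theorem pf_WLT (hLNC : T_LNC) (hTEC : T_TEC) (hLEMN : Pool.Agent.H82.LB.T_LEMN)
    (hT43 : Pool.Agent.H82.LB.T_T43) (hCHN : T_CHN) (hOBT : Pool.Agent.H83.D3N.T_OBT)
    (hCLS : Pool.Agent.H81.GT.T_CLS) (hSPK : T_SPK) (hPUX : T_PUX) :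
    ∃ c₆ : ℝ, 0 < c₆ ∧ c₆ ≤ 1 / 12 ∧ ∀ x : ℝ, 4 / 3 - c₆ ≤ x → x ≤ 4 / 3 →
      Pool.Agent.H92.EZ.WLx 2 x := by
  obtain ⟨cb₀, C₁, L₀, hcb, hC₁, hL₀, hLem⟩ := hLNC hLEMN
  have hE43 : EA43 := hTEC hT43
  obtain ⟨θ, hθ0, hθ1, hCHN⟩ := hCHN cb₀ C₁ L₀ hcb hC₁ hL₀ hLem hE43
  obtain ⟨C₀, hOBT⟩ := hOBT
  obtain ⟨ν, hν, hνθ, hνC⟩ : ∃ ν : ℝ, 0 < ν ∧ ν ≤ θ / 10 ∧ ν / 100 + 9 * ν * C₀ ≤ θ / 4 := by
    have h0 : (0 : ℝ) ≤ C₀ := Nat.cast_nonneg _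
    refine ⟨θ / (10 * (9 * C₀ + 10)), by positivity, ?_, ?_⟩
    · gcongr; linarith
    · have h1 : θ / (10 * (9 * C₀ + 10)) * (9 * C₀ + 10) = θ / 10 := by field_simp
      have h2 : 0 < θ / (10 * (9 * C₀ + 10)) := by positivity
      nlinarith
  obtain ⟨c₆, hc₆, hc₆1, hCHN⟩ := hCHN ν hν hνθ
  refine ⟨c₆, hc₆, hc₆1, fun x hx1 hx2 => ?_⟩
  intro κ ε a X χ hκ ha hX hε
  obtain ⟨L, hL, hL10⟩ : ∃ L : ℕ, L₀ ≤ L ∧ 10 ≤ L := ⟨max L₀ 10, le_max_left _ _, le_max_right _ _⟩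
  obtain ⟨Cc0, hCc0, hc0⟩ := hCLS 2 L κ (ε / 4) a X χ (by norm_num) (by omega) hκ ha hX
    (by positivity)
  obtain ⟨β, hβ⟩ := hPUX 2
  obtain ⟨Cb, hCb, hE⟩ := hE43 L (ε / 2 / 8) hL10 (by positivity)
  obtain ⟨Co, hCo, hO⟩ := hOBT κ (ε / 2 / 8) (ε / 2 / 8) L β a X χ hκ ha hX hβ hL10 (by positivity)
    (by positivity)
  obtain ⟨Ch, hCh, hch⟩ := hCHN L β (ε / 2) (Co * Cb) hL hβ (by positivity)
    (one_le_mul_of_one_le_of_one_le hCo hCb)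
  obtain ⟨Cs, hCs, hs⟩ := hSPK 2 L β hβ
  obtain ⟨T1, hT1, t1⟩ := thr (Co + 1) (θ / 4) (by positivity)
  obtain ⟨T2, hT2, t2⟩ := thr Co ν hν
  obtain ⟨T, hT⟩ : ∃ T : ℝ, T = T1 + T2 + Ch + Co := ⟨_, rfl⟩
  have hT0 : 1 ≤ T := by linarith
  set Cc := max Cc0 1 with hCc
  have hCc1 : 1 ≤ Cc := le_max_right _ _
  set Cs' := max Cs 1 with hCs'
  have hCs1 : 1 ≤ Cs' := le_max_right _ _
  refine ⟨Cb * T * Cs' * Cc ^ x, by positivity, ?_⟩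
  intro R A H f Y hR hf hA hH hY hYH
  have hR0 : 0 < R := by linarith
  obtain ⟨G, hG⟩ : ∃ G : Z 2 → ℂ, G = Gf X R a f := ⟨_, rfl⟩
  obtain ⟨A', hA'⟩ : ∃ A' : ℝ, A' = Cc * R ^ (ε / 4) * A := ⟨_, rfl⟩
  have hRε : 1 ≤ R ^ (ε / 4) := Real.one_le_rpow hR (by positivity)
  have hA'0 : 0 < A' := by rw [hA']; positivity
  have hAA' : A ≤ A' := by
    rw [hA']
    exact le_mul_of_one_le_left hA.le (one_le_mul_of_one_le_of_one_le hCc1 hRε)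
  have hcls : Cls L (1 / 4) R A' (Gf X R a f) := by
    refine cls_mono (A := Cc0 * R ^ (ε / 4) * A) (by positivity) ?_ (hc0 R A f hR hA hf)
    rw [hA']
    have : Cc0 ≤ Cc := le_max_left _ _
    gcongr
  have hYH' : ∀ z ∈ Y, H ≤ ‖TF (Gf X R a f) z‖ := fun z hz => (hYH z hz).2.2
  have hI0 : 0 ≤ ∫ ζ, ‖Gf X R a f ζ‖ ^ 2 := integral_nonneg fun ζ => by positivity
  rcases Y.eq_empty_or_nonempty with hY0 | ⟨z₁, hz₁⟩
  · rw [hY0]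
    simp only [Finset.card_empty, Nat.cast_zero, zero_mul]
    positivity
  have hsup : H ≤ Cs' * A' * R := by
    have h1 := (hs (1 / 4) R A' (Gf X R a f) (by norm_num) (by norm_num) hR hA'0 hcls).2 z₁
    have h2 := (hYH' z₁ hz₁).trans h1
    have h3 : R ^ (((2 : ℕ) : ℝ) / 2) = R := by norm_num
    rw [h3] at h2
    refine h2.trans ?_
    have : Cs ≤ Cs' := le_max_left _ _
    gcongr
  -- the main claim
  have hmain : (Y.card : ℝ) * H ^ (10 / 3 : ℝ) ≤ Cb * T * R ^ (ε / 2) * (A' * R / H) ^ (-c₆) *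
      (A' ^ (4 / 3 : ℝ) * R ^ (1 / 3 : ℝ) * ∫ ζ, ‖Gf X R a f ζ‖ ^ 2) := by
    have hEE := hE R A' H (Gf X R a f) Y hR hA'0 hH hcls hY hYH'
    have hen0 : 0 ≤ En43 A' R (Gf X R a f) := by unfold En43; positivity
    have hRr : R ^ (ε / 2 / 8) ≤ R ^ (ε / 2) := Real.rpow_le_rpow_of_exponent_le hR (by linarith)
    have hΛ0 : 0 < A' * R / H := by positivity
    change _ ≤ _ * En43 A' R (Gf X R a f)
    rcases hen0.eq_or_lt with he0 | he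
    · rw [← he0] at hEE ⊢
      simpa using hEE
    by_cases hΛT : A' * R / H ≤ T
    · refine hEE.trans ?_
      have h1 : 1 ≤ T * (A' * R / H) ^ (-c₆) := by
        have h2 : T ^ (-c₆) ≤ (A' * R / H) ^ (-c₆) :=
          Real.rpow_le_rpow_of_nonpos hΛ0 hΛT (by linarith)
        calc (1 : ℝ) = T ^ (0 : ℝ) := (Real.rpow_zero _).symm
          _ ≤ T ^ (1 + -c₆) := Real.rpow_le_rpow_of_exponent_le hT0 (by linarith)
          _ = T * T ^ (-c₆) := by rw [Real.rpow_add (by linarith), Real.rpow_one]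
          _ ≤ T * (A' * R / H) ^ (-c₆) := by gcongr
      calc Cb * R ^ (ε / 2 / 8) * En43 A' R (Gf X R a f)
          ≤ Cb * R ^ (ε / 2) * En43 A' R (Gf X R a f) := by gcongr
        _ = Cb * R ^ (ε / 2) * 1 * En43 A' R (Gf X R a f) := by ring
        _ ≤ Cb * R ^ (ε / 2) * (T * (A' * R / H) ^ (-c₆)) * En43 A' R (Gf X R a f) := by gcongr
        _ = _ := by ring
    push Not at hΛT
    by_contra hcon
    push Not at hcon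
    obtain ⟨Λ, hΛ⟩ : ∃ Λ : ℝ, Λ = A' * R / H := ⟨_, rfl⟩
    rw [← hΛ] at hcon hΛT hΛ0
    have hΛ1 : 1 ≤ Λ := by linarith
    have hlow : R ^ (ε / 2) * (A' * R / H) ^ (-c₆) * En43 A' R (Gf X R a f) ≤
        Y.card * H ^ (10 / 3 : ℝ) := by
      rw [← hΛ]
      refine le_trans ?_ hcon.le
      have : 1 ≤ Cb * T := one_le_mul_of_one_le_of_one_le hCb hT0
      calc R ^ (ε / 2) * Λ ^ (-c₆) * En43 A' R (Gf X R a f)
          = 1 * (R ^ (ε / 2) * Λ ^ (-c₆) * En43 A' R (Gf X R a f)) := by ring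
        _ ≤ Cb * T * (R ^ (ε / 2) * Λ ^ (-c₆) * En43 A' R (Gf X R a f)) := by gcongr
        _ = _ := by ring
    obtain ⟨K₁, n, w, H', D, P, Q, hst, hK, hBD, hDν, hn1, hnD, hwΛ, hwR, hAR⟩ :=
      hch R A' H (Gf X R a f) Y hR hA'0 hH (by rw [← hΛ]; linarith) hcls hY hYH' he hlow
    rw [← hΛ] at hK hDν hwΛ hwR hAR
    have hw2 : Λ ≤ (w : ℝ) ^ 2 := by
      calc Λ = (Λ ^ (1 / 2 : ℝ)) ^ 2 := by
            rw [← Real.rpow_natCast, ← Real.rpow_mul hΛ0.le]; norm_num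
        _ ≤ (w : ℝ) ^ 2 := by gcongr
    have hw0 : 0 ≤ (w : ℝ) ^ 2 := by positivity
    have hΛR : Λ ≤ R := by
      refine hw2.trans (le_trans ?_ hwR)
      exact le_mul_of_one_le_right hw0 (Real.one_le_rpow hΛ1 (by positivity))
    have hD1 := hst.D1
    have hDD : D ≤ Λ ^ (9 * ν) :=
      hDν.trans (Real.rpow_le_rpow_of_exponent_le hΛ1 (by linarith))
    have hgeo : Co * D ^ 4 * (w : ℝ) ^ 2 ≤ R := by
      refine le_trans ?_ hwR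
      have h1 : D ^ 4 ≤ Λ ^ ν := by
        calc D ^ 4 ≤ (Λ ^ (ν / 100)) ^ 4 := by gcongr
          _ = Λ ^ (ν / 100 * 4) := by rw [Real.rpow_mul hΛ0.le]; norm_cast
          _ ≤ Λ ^ ν := Real.rpow_le_rpow_of_exponent_le hΛ1 (by linarith)
      have h2 : Co ≤ Λ ^ ν := t2 Λ (by linarith)
      calc Co * D ^ 4 * (w : ℝ) ^ 2 ≤ Λ ^ ν * Λ ^ ν * (w : ℝ) ^ 2 := by gcongr
        _ = (w : ℝ) ^ 2 * Λ ^ (ν + ν) := by rw [Real.rpow_add hΛ0]; ring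
        _ ≤ (w : ℝ) ^ 2 * Λ ^ (10 * ν) := by
            have := Real.rpow_le_rpow_of_exponent_le hΛ1 (show ν + ν ≤ 10 * ν by linarith)
            gcongr
    have hfin := hO Cb R A A' H D (Λ ^ (9 * ν)) H' f Y K₁ n w P Q (by linarith) hf hA hAA' hcls
      hCb hE hY hYH hH he hst hBD hn1 hnD hDD hgeo hAR
    have hRD : R ^ (ε / 2 / 8) ≤ Λ ^ (ν / 100) := by
      refine le_trans ?_ (hBD.trans hDν)
      exact le_mul_of_one_le_left (by positivity) (one_le_mul_of_one_le_of_one_le hCo hCb)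
    have h1 : Λ ^ (θ / 2) ≤ Co * Λ ^ (θ / 4) := by
      calc Λ ^ (θ / 2) ≤ K₁ := hK
        _ ≤ Co * R ^ (ε / 2 / 8) * (Λ ^ (9 * ν)) ^ C₀ := hfin
        _ ≤ Co * Λ ^ (ν / 100) * (Λ ^ (9 * ν)) ^ C₀ := by gcongr
        _ = Co * (Λ ^ (ν / 100) * Λ ^ (9 * ν * C₀)) := by
            rw [Real.rpow_mul hΛ0.le (9 * ν) C₀, Real.rpow_natCast]; ring
        _ = Co * Λ ^ (ν / 100 + 9 * ν * C₀) := by rw [Real.rpow_add hΛ0]
        _ ≤ Co * Λ ^ (θ / 4) := by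
            have := Real.rpow_le_rpow_of_exponent_le hΛ1 hνC
            gcongr
    have h2 : Λ ^ (θ / 2) = Λ ^ (θ / 4) * Λ ^ (θ / 4) := by
      rw [← Real.rpow_add hΛ0]; congr 1; ring
    have h3 : Co + 1 ≤ Λ ^ (θ / 4) := t1 Λ (by linarith)
    have h4 : 0 < Λ ^ (θ / 4) := by positivity
    rw [h2] at h1
    have h5 : Λ ^ (θ / 4) ≤ Co := le_of_mul_le_mul_right h1 h4
    linarith
  have hfin := conv hR hA'0 hH hI0 hCs1 (by positivity) hx1 hx2 (by linarith) hsup hmain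
  have e1 : ((2 : ℕ) : ℝ) * x / 2 - 1 = x - 1 := by push_cast; ring
  rw [e1]
  refine hfin.trans ?_
  have hx0 : 0 < x := by linarith
  have e2 : A' ^ x ≤ Cc ^ x * R ^ (ε / 2) * A ^ x := by
    rw [hA', Real.mul_rpow (by positivity) hA.le, Real.mul_rpow (by positivity) (by positivity),
      ← Real.rpow_mul hR0.le]
    have : R ^ (ε / 4 * x) ≤ R ^ (ε / 2) := Real.rpow_le_rpow_of_exponent_le hR (by nlinarith)
    gcongr
  calc Cb * T * Cs' * R ^ (ε / 2) * A' ^ x * R ^ (x - 1) * ∫ ζ, ‖Gf X R a f ζ‖ ^ 2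
      ≤ Cb * T * Cs' * R ^ (ε / 2) * (Cc ^ x * R ^ (ε / 2) * A ^ x) * R ^ (x - 1) *
        ∫ ζ, ‖Gf X R a f ζ‖ ^ 2 := by gcongr
    _ = Cb * T * Cs' * Cc ^ x * (R ^ (ε / 2) * R ^ (ε / 2)) * A ^ x * R ^ (x - 1) *
        ∫ ζ, ‖Gf X R a f ζ‖ ^ 2 := by ring
    _ = Cb * T * Cs' * Cc ^ x * R ^ ε * A ^ x * R ^ (x - 1) *
        ∫ ζ, ‖Gf X R a f ζ‖ ^ 2 := by
        rw [← Real.rpow_add hR0, show ε / 2 + ε / 2 = ε by ring]

end Pool.Agent.H81.D3.WLT
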